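import Mathlib

/-! Abstract group lemmas for MP_cb8b78_al. -/

set_option autoImplicit false

namespace Pool.Agent.MP_cb8b78_al

open Subgroup
open scoped commutatorElement

/-- Homs from a finitely generated group to a finite group form a finite set. -/
theorem finite_hom {K S : Type*} [Group K] [Group S] [Finite S] [hK : Group.FG K] :
    Finite (K →* S) := by
  obtain ⟨A, hA, hAf⟩ := Group.fg_iff.1 hK
  have : Finite A := hAf
  refine Finite.of_injective (fun (ρ : K →* S) (x : A) => ρ x) ?_
  intro ρ σ h
  have h2 : Set.EqOn ρ σ A := by
    intro x hx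
    exact congrFun h ⟨x, hx⟩
  have h3 := MonoidHom.eqOn_closure h2
  rw [hA] at h3
  ext g
  exact h3 (Subgroup.mem_top g)

/-- A f.g. group which embeds into a power of a finite group is finite. -/
theorem finite_of_fg {K S X : Type*} [Group K] [Group S] [Finite S] [Group.FG K]
    (π : X → (K →* S)) (hinj : ∀ g, (∀ x, π x g = 1) → g = 1) : Finite K := by
  have : Finite (K →* S) := finite_hom
  refine Finite.of_injective (fun (k : K) (ρ : K →* S) => ρ k) ?_
  intro g h hgh
  have : g * h⁻¹ = 1 := by
    apply hinj
    intro x
    have := congrFun hgh (π x)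
    simp only at this
    simp [this]
  exact mul_inv_eq_one.1 this

/-- A nonabelian simple group is perfect. -/
theorem simple_perfect {S : Type*} [Group S] [IsSimpleGroup S] (hS : ¬ ∀ x y : S, x * y = y * x) :
    ⁅(⊤ : Subgroup S), (⊤ : Subgroup S)⁆ = ⊤ := by
  have hn : (⁅(⊤ : Subgroup S), (⊤ : Subgroup S)⁆).Normal := inferInstance
  rcases hn.eq_bot_or_eq_top with h | h
  · exfalso
    apply hS
    intro x y
    have hxy : ⁅x, y⁆ ∈ ⁅(⊤ : Subgroup S), (⊤ : Subgroup S)⁆ :=
      Subgroup.commutator_mem_commutator (Subgroup.mem_top x) (Subgroup.mem_top y)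
    rw [h, Subgroup.mem_bot, commutatorElement_eq_one_iff_mul_comm] at hxy
    exact hxy
  · exact h

/-- Key separation lemma. -/
theorem sep {K S : Type*} [Group K] [Group S] [IsSimpleGroup S]
    (hS : ¬ ∀ x y : S, x * y = y * x) {X : Type*} [DecidableEq X] (π : X → (K →* S))
    (hπ : ∀ x, (∀ g, π x g = 1) ∨ Function.Surjective (π x)) (Y : Finset X) :
    ∀ g : K, ∃ c ∈ commutator K, ∀ y ∈ Y, π y g = π y c := by
  induction Y using Finset.induction_on with
  | empty => intro g; exact ⟨1, Subgroup.one_mem _, by simp⟩
  | insert x Y hx ih =>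
    intro g
    obtain ⟨c, hc, hcY⟩ := ih g
    -- L = common kernel
    let L : Subgroup K := ⨅ y ∈ Y, (π y).ker
    have hLn : L.Normal :=
      Subgroup.normal_iInf_normal (fun y => Subgroup.normal_iInf_normal (fun _ => inferInstance))
    have hgL : g * c⁻¹ ∈ L := by
      simp only [L, Subgroup.mem_iInf, MonoidHom.mem_ker]
      intro y hy
      simp [hcY y hy]
    by_cases h1 : π x (g * c⁻¹) = 1
    · refine ⟨c, hc, ?_⟩
      intro y hy
      rcases Finset.mem_insert.1 hy with rfl | hy
      · have := h1
        rw [map_mul, map_inv] at this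
        exact mul_inv_eq_one.1 this
      · exact hcY y hy
    · have hsurj : Function.Surjective (π x) := by
        rcases hπ x with h | h
        · exact absurd (h _) h1
        · exact h
      have hmn : (L.map (π x)).Normal := hLn.map _ hsurj
      have htop : L.map (π x) = ⊤ := by
        rcases hmn.eq_bot_or_eq_top with h | h
        · exfalso
          apply h1
          have : π x (g * c⁻¹) ∈ L.map (π x) := Subgroup.mem_map_of_mem _ hgL
          rw [h, Subgroup.mem_bot] at this
          exact this
        · exact h
      have hcomm : (⁅L, L⁆).map (π x) = ⊤ := by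
        rw [Subgroup.map_commutator, htop, simple_perfect hS]
      have hmem : π x (g * c⁻¹) ∈ (⁅L, L⁆).map (π x) := by rw [hcomm]; trivial
      obtain ⟨c', hc', hc'x⟩ := Subgroup.mem_map.1 hmem
      have hc'L : c' ∈ L := Subgroup.commutator_le_left L L hc'
      have hc'K : c' ∈ commutator K := by
        rw [commutator_def]
        exact Subgroup.commutator_mono le_top le_top hc'
      refine ⟨c' * c, Subgroup.mul_mem _ hc'K hc, ?_⟩
      intro y hy
      rcases Finset.mem_insert.1 hy with rfl | hy
      · rw [map_mul, hc'x, map_mul, map_inv]; group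
      · have : π y c' = 1 := by
          simp only [L, Subgroup.mem_iInf, MonoidHom.mem_ker] at hc'L
          exact hc'L y hy
        rw [map_mul, this, one_mul]
        exact hcY y hy

/-- f.g. group with jointly injective homs to a nonabelian finite simple group, each trivial or onto: perfect -/
theorem perfect_of_sep {K S : Type*} [Group K] [Group S] [Finite S] [IsSimpleGroup S]
    (hS : ¬ ∀ x y : S, x * y = y * x) [Finite K] {X : Type*} (π : X → (K →* S))
    (hπ : ∀ x, (∀ g, π x g = 1) ∨ Function.Surjective (π x))
    (hinj : ∀ g, (∀ x, π x g = 1) → g = 1) : commutator K = ⊤ := by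
  classical
  have hf : Finite (K →* S) := finite_hom
  let X' : Set (K →* S) := Set.range π
  have hX' : X'.Finite := Set.toFinite _
  let Y : Finset X' := @Finset.univ X' (Fintype.ofFinite X')
  rw [eq_top_iff]
  intro g _
  obtain ⟨c, hc, hcY⟩ := sep hS (fun x : X' => (x : K →* S)) (by
    rintro ⟨_, x, rfl⟩
    exact hπ x) Y g
  have : g = c := by
    have : g * c⁻¹ = 1 := by
      apply hinj
      intro x
      have := hcY ⟨π x, x, rfl⟩ (by simp [Y])
      simp only at this
      rw [map_mul, map_inv, this, mul_inv_cancel]
    exact mul_inv_eq_one.1 this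
  rw [this]; exact hc

/-- The normal closure of `f` is perfect if ... -/
theorem normalClosure_perfect {T S : Type*} [Group T] [Group S] [Finite S] [IsSimpleGroup S]
    (hS : ¬ ∀ x y : S, x * y = y * x) [Finite T] {X : Type*} (π : X → (T →* S))
    (hinj : ∀ g, (∀ x, π x g = 1) → g = 1) (f : T)
    (hf : ∀ x, π x f ≠ 1 → Function.Surjective (π x)) :
    commutator (Subgroup.normalClosure {f}) = ⊤ := by
  apply perfect_of_sep hS (fun x => (π x).comp (Subgroup.normalClosure {f}).subtype)
  · intro x
    by_cases h : π x f = 1
    · left
      rintro ⟨g, hg⟩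
      have : Subgroup.normalClosure {f} ≤ (π x).ker := by
        apply Subgroup.normalClosure_le_normal
        simpa using h
      simpa using this hg
    · right
      have hs := hf x h
      have hmn : ((Subgroup.normalClosure {f}).map (π x)).Normal :=
        Subgroup.normalClosure_normal.map _ hs
      have htop : (Subgroup.normalClosure {f}).map (π x) = ⊤ := by
        rcases hmn.eq_bot_or_eq_top with h' | h'
        · exfalso
          apply h
          have : π x f ∈ (Subgroup.normalClosure {f}).map (π x) :=
            Subgroup.mem_map_of_mem _ (Subgroup.subset_normalClosure rfl)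
          rw [h', Subgroup.mem_bot] at this
          exact this
        · exact h'
      intro z
      have : z ∈ (Subgroup.normalClosure {f}).map (π x) := by rw [htop]; trivial
      obtain ⟨g, hg, hgz⟩ := Subgroup.mem_map.1 this
      exact ⟨⟨g, hg⟩, hgz⟩
  · rintro ⟨g, hg⟩ h
    have := hinj g (fun x => h x)
    exact Subtype.ext this

/-- perfect groups map trivially to groups with some trivial derived term. -/
theorem perfect_map_trivial {K Q : Type*} [Group K] [Group Q] (hK : commutator K = ⊤)
    (n : ℕ) (hQ : derivedSeries Q n = ⊥) (ψ : K →* Q) (g : K) : ψ g = 1 := by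
  have hd : ∀ k, derivedSeries K k = ⊤ := by
    intro k
    induction k with
    | zero => rfl
    | succ k ih => rw [derivedSeries_succ, ih, ← commutator_def, hK]
  have := map_derivedSeries_le_derivedSeries ψ n
  rw [hd, hQ] at this
  have h2 : ψ g ∈ (⊤ : Subgroup K).map ψ := Subgroup.mem_map_of_mem _ trivial
  simpa using this h2

end Pool.Agent.MP_cb8b78_al
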