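import Mathlib

/-! The rich list and the self-similar sequence for MP_cb8b78_al. -/

set_option autoImplicit false

namespace Pool.Agent.MP_cb8b78_al

section Rich

variable {S : Type} [Group S]

/-- partial products `∏_{t<i} (p * v t * q)` -/
def pp (p q : S) (v : ℕ → S) : ℕ → S
  | 0 => 1
  | (i + 1) => pp p q v i * (p * v i * q)

theorem pp_congr (p q : S) (v v' : ℕ → S) (n : ℕ) (h : ∀ i, i < n → v i = v' i) :
    ∀ i, i ≤ n → pp p q v i = pp p q v' i := by
  intro i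
  induction i with
  | zero => intro _; rfl
  | succ i ih =>
    intro hi
    rw [pp, pp, ih (by omega), h i (by omega)]

theorem exists_rich_list (L : List (S × S × S)) :
    ∃ (n : ℕ) (v : ℕ → S), ∀ x ∈ L, ∃ i, i ≤ n ∧ pp x.1 x.2.1 v i = x.2.2 := by
  induction L with
  | nil => exact ⟨0, fun _ => 1, by simp⟩
  | cons x L ih =>
    obtain ⟨n, v, hv⟩ := ih
    let v' : ℕ → S := fun i => if i < n then v i else x.1⁻¹ * (pp x.1 x.2.1 v n)⁻¹ * x.2.2 * x.2.1⁻¹
    have hvv : ∀ i, i < n → v i = v' i := by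
      intro i hi; simp [v', hi]
    refine ⟨n + 1, v', ?_⟩
    intro y hy
    rcases List.mem_cons.1 hy with rfl | hy
    · refine ⟨n + 1, le_rfl, ?_⟩
      rw [pp, ← pp_congr _ _ v v' n hvv n le_rfl]
      simp only [v', lt_irrefl, if_false]
      group
    · obtain ⟨i, hi, hiy⟩ := hv y hy
      refine ⟨i, by omega, ?_⟩
      rw [← pp_congr _ _ v v' n hvv i hi, hiy]

theorem exists_rich [Finite S] :
    ∃ (r : ℕ) (v : ℕ → S), ∀ p q τ : S, ∃ i, i < r ∧ pp p q v i = τ := by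
  classical
  have := Fintype.ofFinite S
  obtain ⟨n, v, hv⟩ := exists_rich_list (Finset.univ : Finset (S × S × S)).toList
  refine ⟨n + 1, v, fun p q τ => ?_⟩
  obtain ⟨i, hi, h⟩ := hv (p, q, τ) (by simp)
  exact ⟨i, by omega, h⟩

/-- `u k = v 0 * ... * v (k-1)` -/
def uu (v : ℕ → S) : ℕ → S
  | 0 => 1
  | (i + 1) => uu v i * v i

end Rich

/-! ### The sequence -/

/-- scale -/
def DD (r n : ℕ) : ℕ := (2 * r) ^ n * n.factorial

theorem DD_zero (r : ℕ) : DD r 0 = 1 := by simp [DD]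

theorem DD_succ (r n : ℕ) : DD r (n + 1) = 2 * r * (n + 1) * DD r n := by
  simp only [DD, pow_succ, Nat.factorial_succ]; ring

theorem DD_pos {r : ℕ} (hr : 0 < r) (n : ℕ) : 0 < DD r n := by
  unfold DD; positivity

theorem le_DD {r : ℕ} (hr : 0 < r) (n : ℕ) : n < DD r n ∨ n = DD r n := by
  have h1 : n ≤ n.factorial := Nat.self_le_factorial n
  have h2 : n.factorial ≤ DD r n := by
    unfold DD
    exact Nat.le_mul_of_pos_left _ (by positivity)
  omega

theorem lt_DD {r : ℕ} (hr : 0 < r) (n : ℕ) : n < DD r n := by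
  have h1 : n ≤ n.factorial := Nat.self_le_factorial n
  have h0 : 0 < n.factorial := Nat.factorial_pos n
  have h2 : (2 * r) ^ n ≥ 2 ^ n := Nat.pow_le_pow_left (by omega) n
  have h3 : n < 2 ^ n := Nat.lt_two_pow_self
  have h4 : DD r n ≥ (2 * r) ^ n := by
    unfold DD; exact Nat.le_mul_of_pos_right _ h0
  omega

theorem dvd_DD {r m n : ℕ} (hm : 0 < m) (hmn : m ≤ n) : m ∣ DD r n :=
  Dvd.dvd.mul_left (Nat.dvd_factorial hm hmn) _

theorem DD_mono {r : ℕ} (hr : 0 < r) {m n : ℕ} (h : m ≤ n) : DD r m ≤ DD r n := by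
  induction n, h using Nat.le_induction with
  | base => exact le_rfl
  | succ n _ ih =>
    rw [DD_succ]
    have : 1 ≤ 2 * r * (n + 1) := by
      have : 0 < 2 * r * (n + 1) := by positivity
      omega
    calc DD r m ≤ DD r n := ih
      _ ≤ _ := Nat.le_mul_of_pos_left _ (by omega)

variable {S : Type} [Group S]

/-- the level-`n` words, as functions on `ℕ` (only meaningful on `[0, D_n)`) -/
def ww (r : ℕ) (v : ℕ → S) (x0 : S) : ℕ → ℕ → S
  | 0, _ => x0
  | (n + 1), x =>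
    if x / DD r n < r then
      uu v (x / DD r n) * ww r v x0 n (x % DD r n) * (uu v (x / DD r n))⁻¹ else 1

/-- the sequence on `ℕ` -/
def aN (r : ℕ) (v : ℕ → S) (x0 : S) (x : ℕ) : S := ww r v x0 x x

theorem ww_succ_of_lt {r : ℕ} (hr : 0 < r) (v : ℕ → S) (x0 : S) (n x : ℕ) (hx : x < DD r n) :
    ww r v x0 (n + 1) x = ww r v x0 n x := by
  rw [ww, Nat.div_eq_of_lt hx, Nat.mod_eq_of_lt hx, if_pos hr]
  simp [uu]

theorem ww_of_le {r : ℕ} (hr : 0 < r) (v : ℕ → S) (x0 : S) (n m x : ℕ) (hnm : n ≤ m)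
    (hx : x < DD r n) :
    ww r v x0 m x = ww r v x0 n x := by
  induction m, hnm using Nat.le_induction with
  | base => rfl
  | succ m hm ih =>
    rw [ww_succ_of_lt hr v x0 m x (lt_of_lt_of_le hx (DD_mono hr hm)), ih]

theorem aN_eq {r : ℕ} (hr : 0 < r) (v : ℕ → S) (x0 : S) (n x : ℕ) (hx : x < DD r n) :
    aN r v x0 x = ww r v x0 n x := by
  unfold aN
  rcases le_total n x with h | h
  · exact ww_of_le hr v x0 n x x h hx
  · exact (ww_of_le hr v x0 x n x h (lt_DD hr x)).symm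

theorem aN_zero {r : ℕ} (v : ℕ → S) (x0 : S) : aN r v x0 0 = x0 := rfl

theorem aN_self {r : ℕ} (hr : 0 < r) (v : ℕ → S) (x0 : S) (n k j : ℕ) (hk : k < r)
    (hj : j < DD r n) :
    aN r v x0 (k * DD r n + j) = uu v k * aN r v x0 j * (uu v k)⁻¹ := by
  have hD := DD_pos hr n
  have h1 : k * DD r n + j < DD r (n + 1) := by
    rw [DD_succ]
    have : (k + 1) * DD r n ≤ 2 * r * (n + 1) * DD r n := by
      apply Nat.mul_le_mul_right
      nlinarith
    nlinarith
  have h2 : (k * DD r n + j) / DD r n = k := by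
    rw [mul_comm, Nat.mul_add_div hD, Nat.div_eq_of_lt hj, add_zero]
  have h3 : (k * DD r n + j) % DD r n = j := by
    rw [mul_comm, Nat.mul_add_mod, Nat.mod_eq_of_lt hj]
  rw [aN_eq hr v x0 (n + 1) _ h1, aN_eq hr v x0 n j hj, ww, h2, h3, if_pos hk]

theorem aN_gap {r : ℕ} (hr : 0 < r) (v : ℕ → S) (x0 : S) (n x : ℕ) (h1 : r * DD r n ≤ x)
    (h2 : x < DD r (n + 1)) : aN r v x0 x = 1 := by
  have hD := DD_pos hr n
  rw [aN_eq hr v x0 (n + 1) _ h2, ww, if_neg]
  rw [not_lt, Nat.le_div_iff_mul_le hD]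
  exact h1

/-- the sequence on `ℤ` -/
def aZ (r : ℕ) (v : ℕ → S) (x0 : S) (x : ℤ) : S := if x < 0 then 1 else aN r v x0 x.toNat

theorem aZ_neg {r : ℕ} (v : ℕ → S) (x0 : S) (x : ℤ) (hx : x < 0) : aZ r v x0 x = 1 := by
  simp [aZ, hx]

theorem aZ_zero {r : ℕ} (v : ℕ → S) (x0 : S) : aZ r v x0 0 = x0 := by
  simp [aZ, aN_zero]

theorem aZ_natCast {r : ℕ} (v : ℕ → S) (x0 : S) (x : ℕ) : aZ r v x0 (x : ℤ) = aN r v x0 x := by
  simp [aZ]

/-- in the second half of `[0, D_{n+1})` the sequence is trivial -/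
theorem aZ_half {r : ℕ} (hr : 0 < r) (v : ℕ → S) (x0 : S) (n : ℕ) (x : ℤ)
    (h1 : (DD r (n + 1) : ℤ) ≤ 2 * x) (h2 : x < DD r (n + 1)) : aZ r v x0 x = 1 := by
  have hD := DD_pos hr (n + 1)
  have hx : 0 ≤ x := by omega
  obtain ⟨y, rfl⟩ := Int.eq_ofNat_of_zero_le hx
  rw [aZ_natCast]
  apply aN_gap hr v x0 n
  · have h3 : DD r (n + 1) ≤ 2 * y := by exact_mod_cast h1
    rw [DD_succ] at h3
    have : 2 * (r * DD r n) ≤ 2 * r * (n + 1) * DD r n := by
      nlinarith [Nat.zero_le (r * DD r n * n)]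
    omega
  · exact_mod_cast h2

/-- self-similarity, including the left neighbourhood. -/
theorem aZ_self {r : ℕ} (hr : 0 < r) (v : ℕ → S) (x0 : S) (n k : ℕ) (hk : k < r) (j : ℤ)
    (h1 : -(DD r n : ℤ) ≤ 2 * j) (h2 : j < DD r n) :
    aZ r v x0 (k * DD r n + j) = uu v k * aZ r v x0 j * (uu v k)⁻¹ := by
  have hD := DD_pos hr n
  rcases lt_or_ge j 0 with hj | hj
  · rw [aZ_neg v x0 j hj]
    simp only [mul_one, mul_inv_cancel]
    rcases Nat.eq_zero_or_pos k with rfl | hk0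
    · apply aZ_neg
      simpa using hj
    · obtain ⟨k, rfl⟩ : ∃ k', k = k' + 1 := ⟨k - 1, by omega⟩
      -- n ≥ 1 here
      obtain ⟨n, rfl⟩ : ∃ n', n = n' + 1 := by
        rcases Nat.eq_zero_or_pos n with rfl | hn
        · exfalso
          rw [DD_zero] at h1
          omega
        · exact ⟨n - 1, by omega⟩
      have h3 : ((k + 1 : ℕ) : ℤ) * DD r (n + 1) + j = (k : ℤ) * DD r (n + 1) + (DD r (n + 1) + j) := by
        push_cast; ring
      rw [h3]
      have h4 : aZ r v x0 (DD r (n + 1) + j) = 1 := by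
        apply aZ_half hr v x0 n <;> omega
      obtain ⟨y, hy⟩ := Int.eq_ofNat_of_zero_le (show 0 ≤ (DD r (n + 1) : ℤ) + j by omega)
      rw [hy] at h4 ⊢
      have h5 : (k : ℤ) * (DD r (n + 1) : ℤ) + (y : ℤ) = ((k * DD r (n + 1) + y : ℕ) : ℤ) := by
        push_cast; ring
      rw [h5, aZ_natCast, aN_self hr v x0 (n + 1) k y (by omega) (by omega)]
      rw [aZ_natCast] at h4
      rw [h4]
      simp
  · obtain ⟨y, rfl⟩ := Int.eq_ofNat_of_zero_le hj
    have h5 : (k : ℤ) * (DD r n : ℤ) + (y : ℤ) = ((k * DD r n + y : ℕ) : ℤ) := by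
      push_cast; ring
    rw [h5, aZ_natCast, aZ_natCast]
    exact aN_self hr v x0 n k y hk (by exact_mod_cast h2)

/-- if the value is nontrivial in `[0, D_{n+1})`, the leading digit is `< r` -/
theorem aZ_digit {r : ℕ} (hr : 0 < r) (v : ℕ → S) (x0 : S) (n : ℕ) (y : ℤ) (h0 : 0 ≤ y)
    (h2 : y < DD r (n + 1)) (hy : aZ r v x0 y ≠ 1) :
    ∃ (k : ℕ) (j : ℤ), k < r ∧ 0 ≤ j ∧ j < DD r n ∧ y = k * DD r n + j ∧ aZ r v x0 j ≠ 1 := by
  have hD := DD_pos hr n
  obtain ⟨z, rfl⟩ := Int.eq_ofNat_of_zero_le h0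
  have hz : z < r * DD r n := by
    by_contra hcon
    apply hy
    rw [aZ_natCast]
    exact aN_gap hr v x0 n z (by omega) (by exact_mod_cast h2)
  have hk : z / DD r n < r := (Nat.div_lt_iff_lt_mul hD).2 hz
  have hj : z % DD r n < DD r n := Nat.mod_lt _ hD
  have hzz : (z : ℤ) = ((z / DD r n : ℕ) : ℤ) * (DD r n : ℤ) + ((z % DD r n : ℕ) : ℤ) := by
    have := Nat.div_add_mod z (DD r n)
    have h : z = (z / DD r n) * DD r n + z % DD r n := by rw [mul_comm]; exact this.symm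
    exact_mod_cast h
  refine ⟨z / DD r n, ((z % DD r n : ℕ) : ℤ), hk, by positivity, by exact_mod_cast hj, hzz, ?_⟩
  intro hcon
  apply hy
  rw [hzz, aZ_self hr v x0 n _ hk _ (by omega) (by exact_mod_cast hj), hcon]
  simp

/-- `b` is the position and `F` the frame of a level-`n` copy. -/
def Copy (r : ℕ) (a : ℤ → S) (n : ℕ) (b : ℤ) (F : S) : Prop :=
  ∀ j : ℤ, -(DD r n : ℤ) ≤ 2 * j → j < DD r n → a (b + j) = F * a j * F⁻¹

theorem Copy.sub {r : ℕ} (hr : 0 < r) (v : ℕ → S) (x0 : S) {n : ℕ} {b : ℤ} {F : S}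
    (h : Copy r (aZ r v x0) (n + 1) b F) {k : ℕ} (hk : k < r) :
    Copy r (aZ r v x0) n (b + k * DD r n) (F * uu v k) := by
  intro j h1 h2
  have hD := DD_pos hr n
  have hD1 : (DD r (n + 1) : ℤ) = 2 * r * (n + 1) * DD r n := by
    rw [DD_succ]; push_cast; ring
  have hge : (DD r (n + 1) : ℤ) ≥ 2 * r * DD r n := by
    rw [hD1]
    have : (0 : ℤ) ≤ r * DD r n * n := by positivity
    nlinarith
  have hk' : (k : ℤ) + 1 ≤ r := by exact_mod_cast hk
  have hkD : ((k : ℤ) + 1) * DD r n ≤ r * DD r n := by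
    apply mul_le_mul_of_nonneg_right hk' (by positivity)
  have hkD0 : (0 : ℤ) ≤ k * DD r n := by positivity
  have hr' : (DD r n : ℤ) ≤ r * DD r n := by
    have : (1 : ℤ) ≤ r := by exact_mod_cast hr
    nlinarith
  rw [add_assoc, h (k * DD r n + j) (by nlinarith) (by nlinarith),
    aZ_self hr v x0 n k hk j h1 h2]
  group

/-- every nontrivial position is in some level-`n` copy. -/
theorem exists_copy {r : ℕ} (hr : 0 < r) (v : ℕ → S) (x0 : S) (n : ℕ) (x : ℤ)
    (hx : aZ r v x0 x ≠ 1) :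
    ∃ (b : ℤ) (F : S), Copy r (aZ r v x0) n b F ∧ b ≤ x ∧ x < b + DD r n := by
  have hx0 : 0 ≤ x := by
    by_contra h
    exact hx (aZ_neg v x0 x (by omega))
  -- induction
  have key : ∀ N, n ≤ N → ∀ x : ℤ, 0 ≤ x → x < DD r N → aZ r v x0 x ≠ 1 →
      ∃ (b : ℤ) (F : S), Copy r (aZ r v x0) n b F ∧ b ≤ x ∧ x < b + DD r n ∧ 0 ≤ b ∧
        b + DD r n ≤ DD r N := by
    intro N hN
    induction N, hN using Nat.le_induction with
    | base =>
      intro x hx0 hx1 hx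
      refine ⟨0, 1, ?_, hx0, by omega, le_rfl, by omega⟩
      intro j _ _
      simp
    | succ N hN ih =>
      intro x hx0 hx1 hx
      obtain ⟨k, j, hk, hj0, hj1, hxe, hja⟩ := aZ_digit hr v x0 N x hx0 hx1 hx
      obtain ⟨b, F, hC, hb1, hb2, hb3, hb4⟩ := ih j hj0 hj1 hja
      have hD := DD_pos hr n
      have hDN := DD_pos hr N
      have hge : (DD r (N + 1) : ℤ) ≥ r * DD r N := by
        rw [DD_succ]
        push_cast
        have : (0 : ℤ) ≤ r * DD r N * N := by positivity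
        have : (0 : ℤ) ≤ r * DD r N := by positivity
        nlinarith
      have hk' : (k : ℤ) + 1 ≤ r := by exact_mod_cast hk
      have hkD : ((k : ℤ) + 1) * DD r N ≤ r * DD r N := by
        apply mul_le_mul_of_nonneg_right hk' (by positivity)
      have hkD0 : (0 : ℤ) ≤ k * DD r N := by positivity
      refine ⟨k * DD r N + b, uu v k * F, ?_, by omega, by omega, by omega, by nlinarith⟩
      intro i hi1 hi2
      rw [add_assoc, aZ_self hr v x0 N k hk (b + i) (by omega) (by omega), hC i hi1 hi2]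
      group
  have hlt : x.toNat < DD r x.toNat := lt_DD hr _
  have hlt2 : DD r x.toNat ≤ DD r (max n x.toNat) := DD_mono hr (le_max_right _ _)
  obtain ⟨b, F, h1, h2, h3, _, _⟩ := key (max n x.toNat) (le_max_left _ _) x hx0 (by omega) hx
  exact ⟨b, F, h1, h2, h3⟩

end Pool.Agent.MP_cb8b78_al
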