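import Mathlib
import Pool.Agent.Work.MP_cb8b78_al.GroupLemmas
import Pool.Agent.Work.MP_cb8b78_al.Seq

/-! The ambient group and the key theorem for MP_cb8b78_al. -/

set_option autoImplicit false

namespace Pool.Agent.MP_cb8b78_al

/-- The ambient group `S^ℤ ⋊ ℤ`. The element `⟨f, m⟩` stands for `f t^m`,
where `t f t⁻¹ (j) = f (j-1)`. -/
@[ext] structure W (S : Type) where
  fn : ℤ → S
  sh : ℤ

namespace W

variable {S : Type} [Group S]

instance : Mul (W S) := ⟨fun x y => ⟨fun j => x.fn j * y.fn (j - x.sh), x.sh + y.sh⟩⟩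
instance : One (W S) := ⟨⟨fun _ => 1, 0⟩⟩
instance : Inv (W S) := ⟨fun x => ⟨fun j => (x.fn (j + x.sh))⁻¹, -x.sh⟩⟩

theorem mul_fn (x y : W S) (j : ℤ) : (x * y).fn j = x.fn j * y.fn (j - x.sh) := rfl
theorem mul_sh (x y : W S) : (x * y).sh = x.sh + y.sh := rfl
theorem one_fn (j : ℤ) : (1 : W S).fn j = 1 := rfl
theorem one_sh : (1 : W S).sh = 0 := rfl
theorem inv_fn (x : W S) (j : ℤ) : (x⁻¹).fn j = (x.fn (j + x.sh))⁻¹ := rfl
theorem inv_sh (x : W S) : (x⁻¹).sh = -x.sh := rfl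

instance : Group (W S) :=
  Group.ofLeftAxioms
    (by
      intro x y z
      ext j
      · simp only [mul_fn, mul_sh, mul_assoc]
        congr 3
        ring
      · simp only [mul_sh]; ring)
    (by
      intro x
      ext j
      · simp only [mul_fn, one_fn, one_sh, one_mul, sub_zero]
      · simp only [mul_sh, one_sh, zero_add])
    (by
      intro x
      ext j
      · simp only [mul_fn, inv_fn, inv_sh, one_fn, sub_neg_eq_add, inv_mul_cancel]
      · simp only [mul_sh, inv_sh, one_sh, neg_add_cancel])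

/-- shift exponent homomorphism -/
def shHom : W S →* Multiplicative ℤ where
  toFun x := Multiplicative.ofAdd x.sh
  map_one' := rfl
  map_mul' _ _ := rfl

theorem shHom_eq_one {x : W S} : shHom x = 1 ↔ x.sh = 0 := by
  show Multiplicative.ofAdd x.sh = 1 ↔ x.sh = 0
  exact ofAdd_eq_one

end W

open W

section Conj

variable {S : Type} [Group S]

/-- cocycle products -/
def hh (g : ℤ → S) (m : ℤ) : ℕ → ℤ → S
  | 0, _ => 1
  | (i + 1), y => g (y + ((i : ℤ) + 1) * m) * hh g m i y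

theorem hh_add (g : ℤ → S) (m : ℤ) (i i' : ℕ) (y : ℤ) :
    hh g m (i + i') y = hh g m i' (y + i * m) * hh g m i y := by
  induction i' with
  | zero => simp [hh]
  | succ i' ih =>
    rw [← add_assoc, hh, hh, ih, ← mul_assoc]
    congr 3
    push_cast
    ring

theorem conj_one (s ψ : W S) (hψ : ψ.sh = 0) (y : ℤ) :
    (s⁻¹ * ψ * s).fn y = (s.fn (y + s.sh))⁻¹ * ψ.fn (y + s.sh) * s.fn (y + s.sh) := by
  simp only [mul_fn, mul_sh, inv_fn, inv_sh, hψ, sub_neg_eq_add, add_zero]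

theorem conj_sh (s ψ : W S) (hψ : ψ.sh = 0) : (s⁻¹ * ψ * s).sh = 0 := by
  simp only [mul_sh, inv_sh, hψ]; ring

theorem conj_pow (s : W S) (i : ℕ) : ∀ (ψ : W S) (_ : ψ.sh = 0) (y : ℤ),
    ((s ^ i)⁻¹ * ψ * s ^ i).fn y =
      (hh s.fn s.sh i y)⁻¹ * ψ.fn (y + i * s.sh) * hh s.fn s.sh i y := by
  induction i with
  | zero => intro ψ _ y; simp [hh]
  | succ i ih =>
    intro ψ hψ y
    have h1 : (s ^ (i + 1))⁻¹ * ψ * s ^ (i + 1) = (s ^ i)⁻¹ * (s⁻¹ * ψ * s) * s ^ i := by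
      rw [pow_succ']; group
    rw [h1, ih _ (conj_sh s ψ hψ), conj_one s ψ hψ, hh]
    have h2 : y + (i : ℤ) * s.sh + s.sh = y + ((i : ℤ) + 1) * s.sh := by ring
    have h3 : y + ((i + 1 : ℕ) : ℤ) * s.sh = y + ((i : ℤ) + 1) * s.sh := by push_cast; ring
    rw [h2, h3]
    group

end Conj

section Local

variable {S : Type} [Group S]

/-- `φ` is an equivariant sliding block function of `a` of radius `l`. -/
def Local (a : ℤ → S) (l : ℤ) (φ : ℤ → S) : Prop :=
  (∀ (x y : ℤ) (F : S), (∀ i : ℤ, -l ≤ i → i ≤ l → a (x + i) = F * a (y + i) * F⁻¹) →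
    φ x = F * φ y * F⁻¹) ∧
  (∀ x : ℤ, (∀ i : ℤ, -l ≤ i → i ≤ l → a (x + i) = 1) → φ x = 1)

theorem Local.mono {a : ℤ → S} {l l' : ℤ} {φ : ℤ → S} (h : Local a l φ) (hl : l ≤ l') :
    Local a l' φ :=
  ⟨fun x y F H => h.1 x y F (fun i h1 h2 => H i (by omega) (by omega)),
    fun x H => h.2 x (fun i h1 h2 => H i (by omega) (by omega))⟩

theorem Local.one (a : ℤ → S) (l : ℤ) : Local a l (fun _ => 1) :=
  ⟨fun _ _ F _ => by simp, fun _ _ => rfl⟩

theorem Local.self (a : ℤ → S) : Local a 0 a :=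
  ⟨fun x y F H => by simpa using H 0 le_rfl le_rfl, fun x H => by simpa using H 0 le_rfl le_rfl⟩

theorem Local.mul {a : ℤ → S} {l : ℤ} {φ ψ : ℤ → S} (h : Local a l φ) (h' : Local a l ψ) :
    Local a l (fun x => φ x * ψ x) :=
  ⟨fun x y F H => by
      show φ x * ψ x = F * (φ y * ψ y) * F⁻¹
      rw [h.1 x y F H, h'.1 x y F H]; group,
    fun x H => by
      show φ x * ψ x = 1
      rw [h.2 x H, h'.2 x H, one_mul]⟩

theorem Local.inv {a : ℤ → S} {l : ℤ} {φ : ℤ → S} (h : Local a l φ) :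
    Local a l (fun x => (φ x)⁻¹) :=
  ⟨fun x y F H => by
      show (φ x)⁻¹ = F * (φ y)⁻¹ * F⁻¹
      rw [h.1 x y F H]; group,
    fun x H => by
      show (φ x)⁻¹ = 1
      rw [h.2 x H, inv_one]⟩

theorem Local.shift {a : ℤ → S} {l : ℤ} {φ : ℤ → S} (h : Local a l φ) (c : ℤ) :
    Local a (l + |c|) (fun x => φ (x + c)) := by
  have h1 := neg_abs_le c
  have h2 := le_abs_self c
  constructor
  · intro x y F H
    apply h.1
    intro i hi1 hi2
    have := H (c + i) (by omega) (by omega)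
    rwa [← add_assoc, ← add_assoc] at this
  · intro x H
    apply h.2
    intro i hi1 hi2
    have := H (c + i) (by omega) (by omega)
    rwa [← add_assoc] at this

/-- generator `a` -/
def gA (a : ℤ → S) : W S := ⟨a, 0⟩
/-- generator `t` -/
def gT : W S := ⟨fun _ => 1, 1⟩

/-- the group -/
def GG (a : ℤ → S) : Subgroup (W S) := Subgroup.closure {gA a, gT}

theorem local_of_mem {a : ℤ → S} {w : W S} (hw : w ∈ GG a) : ∃ l : ℤ, 0 ≤ l ∧ Local a l w.fn := by
  induction hw using Subgroup.closure_induction with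
  | mem x hx =>
    rcases hx with rfl | rfl
    · exact ⟨0, le_rfl, Local.self a⟩
    · exact ⟨0, le_rfl, Local.one a 0⟩
  | one => exact ⟨0, le_rfl, Local.one a 0⟩
  | mul x y _ _ hx hy =>
    obtain ⟨l, hl0, hl⟩ := hx
    obtain ⟨l', hl0', hl'⟩ := hy
    have h2 := hl'.shift (-x.sh)
    have h0 := abs_nonneg (-x.sh)
    refine ⟨max l (l' + |(-x.sh)|), by omega, ?_⟩
    have := (hl.mono (le_max_left l (l' + |(-x.sh)|))).mul
      (h2.mono (le_max_right l (l' + |(-x.sh)|)))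
    exact this
  | inv x _ hx =>
    obtain ⟨l, hl0, hl⟩ := hx
    have h2 := hl.shift (x.sh)
    have h0 := abs_nonneg (x.sh)
    exact ⟨l + |x.sh|, by omega, h2.inv⟩

end Local

section Block

variable {S : Type} [Group S]

theorem local_copy {r : ℕ} {a g : ℤ → S} {l : ℤ} (hg : Local a l g) {n : ℕ} {b : ℤ} {F : S}
    (hC : Copy r a n b F) (z : ℤ) (h1 : -(DD r n : ℤ) ≤ 2 * (z - l)) (h2 : z + l < DD r n) :
    g (b + z) = F * g z * F⁻¹ := by
  apply hg.1
  intro i hi1 hi2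
  rw [add_assoc]
  exact hC (z + i) (by omega) (by omega)

theorem hh_copy {r : ℕ} {a g : ℤ → S} {l : ℤ} (hg : Local a l g) {n : ℕ} {b : ℤ} {F : S}
    (hC : Copy r a n b F) (m : ℤ) (i : ℕ) (y : ℤ)
    (h : ∀ i' : ℕ, 1 ≤ i' → i' ≤ i → -(DD r n : ℤ) ≤ 2 * (y + i' * m - l) ∧
      y + i' * m + l < DD r n) :
    hh g m i (b + y) = F * hh g m i y * F⁻¹ := by
  induction i with
  | zero => simp [hh]
  | succ i ih =>
    have h1 := h (i + 1) (by omega) le_rfl
    push_cast at h1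
    rw [hh, hh, ih (fun i' h1 h2 => h i' h1 (by omega)), add_assoc,
      local_copy hg hC _ h1.1 h1.2]
    group

/-- passing one block -/
theorem hh_block {r : ℕ} {a g : ℤ → S} {l : ℤ} (hg : Local a l g) {n : ℕ} {b : ℤ}
    {F F' : S} (hC : Copy r a n b F) (hC' : Copy r a n (b + DD r n) F') (m : ℤ) (hm : 0 < m)
    (q : ℕ) (hq : (q : ℤ) * m = DD r n) (hlD : 4 * l ≤ DD r n) (j : ℤ) (hj1 : -l ≤ j)
    (hj2 : j + l < DD r n) :
    hh g m q (b + j) =
      F' * hh g m (q - ((DD r n - l - j - 1) / m).toNat)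
        (j + ((DD r n - l - j - 1) / m).toNat * m - DD r n) * F'⁻¹ *
      (F * hh g m ((DD r n - l - j - 1) / m).toNat j * F⁻¹) := by
  set D : ℤ := (DD r n : ℤ) with hD
  have hnn : 0 ≤ (D - l - j - 1) / m := Int.ediv_nonneg (by omega) hm.le
  obtain ⟨i0, hi0⟩ := Int.eq_ofNat_of_zero_le hnn
  rw [hi0]
  simp only [Int.toNat_natCast]
  have hle : (i0 : ℤ) * m ≤ D - l - j - 1 := by
    rw [← hi0]; exact Int.ediv_mul_le _ hm.ne'
  have hlt : D - l - j - 1 < ((i0 : ℤ) + 1) * m := by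
    rw [← hi0]; exact Int.lt_ediv_add_one_mul_self _ hm
  have hi0q : i0 ≤ q := by
    by_contra hcon
    have h1 : (q : ℤ) + 1 ≤ i0 := by exact_mod_cast (by omega : q + 1 ≤ i0)
    have h2 : ((q : ℤ) + 1) * m ≤ (i0 : ℤ) * m := mul_le_mul_of_nonneg_right h1 hm.le
    nlinarith
  obtain ⟨i1, rfl⟩ : ∃ i1, q = i0 + i1 := ⟨q - i0, by omega⟩
  rw [hh_add, Nat.add_sub_cancel_left]
  congr 1
  · have h1 : b + j + (i0 : ℤ) * m = (b + D) + (j + i0 * m - D) := by ring
    rw [h1]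
    apply hh_copy hg hC'
    intro i' h1 h2
    have h3 : (1 : ℤ) ≤ i' := by exact_mod_cast h1
    have h4 : (i' : ℤ) ≤ i1 := by exact_mod_cast h2
    have h5 : (i' : ℤ) * m ≥ 1 * m := mul_le_mul_of_nonneg_right h3 hm.le
    have h6 : (i' : ℤ) * m ≤ i1 * m := mul_le_mul_of_nonneg_right h4 hm.le
    push_cast at hq
    constructor <;> nlinarith
  · apply hh_copy hg hC
    intro i' h1 h2
    have h3 : (1 : ℤ) ≤ i' := by exact_mod_cast h1
    have h4 : (i' : ℤ) ≤ i0 := by exact_mod_cast h2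
    have h5 : (i' : ℤ) * m ≥ 1 * m := mul_le_mul_of_nonneg_right h3 hm.le
    have h6 : (i' : ℤ) * m ≤ i0 * m := mul_le_mul_of_nonneg_right h4 hm.le
    constructor <;> nlinarith

theorem hh_progression {r : ℕ} (hr : 0 < r) (v : ℕ → S) (x0 : S) {g : ℤ → S} {l : ℤ}
    (hg : Local (aZ r v x0) l g) {n : ℕ} {b : ℤ} {F : S}
    (hC : Copy r (aZ r v x0) (n + 1) b F) (m : ℤ) (hm : 0 < m)
    (q : ℕ) (hq : (q : ℤ) * m = DD r n) (hlD : 4 * l ≤ DD r n) (j : ℤ) (hj1 : -l ≤ j)
    (hj2 : j + l < DD r n) :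
    ∃ γ γ' : S, ∀ e : ℕ, e < r →
      hh g m (q * e) (b + j) = F * uu v e * (pp γ γ' v e)⁻¹ * F⁻¹ := by
  refine ⟨(hh g m ((DD r n - l - j - 1) / m).toNat j)⁻¹,
    (hh g m (q - ((DD r n - l - j - 1) / m).toNat)
        (j + ((DD r n - l - j - 1) / m).toNat * m - DD r n))⁻¹, ?_⟩
  intro e
  induction e with
  | zero => intro _; simp [hh, uu, pp]
  | succ e ih =>
    intro he
    have hC1 : Copy r (aZ r v x0) n (b + e * DD r n) (F * uu v e) := hC.sub hr v x0 (by omega)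
    have hC2 : Copy r (aZ r v x0) n (b + e * DD r n + DD r n) (F * uu v (e + 1)) := by
      have := hC.sub hr v x0 he
      have h2 : b + ((e + 1 : ℕ) : ℤ) * DD r n = b + e * DD r n + DD r n := by push_cast; ring
      rwa [h2] at this
    have hb := hh_block hg hC1 hC2 m hm q hq hlD j hj1 hj2
    rw [Nat.mul_succ, hh_add, ih (by omega)]
    have h3 : b + j + ((q * e : ℕ) : ℤ) * m = b + e * DD r n + j := by
      push_cast
      rw [← hq]; ring
    rw [h3, hb, pp]
    simp only [uu]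
    group

end Block

section Main

variable {S : Type} [Group S]

/-- evaluation at `x` on a group all of whose elements have shift `0` -/
def evHom {K : Type*} [Group K] (ι : K →* W S) (h : ∀ k, (ι k).sh = 0) (x : ℤ) : K →* S where
  toFun k := (ι k).fn x
  map_one' := by rw [map_one]; rfl
  map_mul' k k' := by rw [map_mul, mul_fn, h k, sub_zero]

theorem ev_inj {K : Type*} [Group K] (ι : K →* W S) (h : ∀ k, (ι k).sh = 0)
    (hι : Function.Injective ι) (g : K) (hg : ∀ x, evHom ι h x g = 1) : g = 1 := by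
  apply hι
  rw [map_one]
  ext x
  · exact hg x
  · exact h g

theorem pow_sh (s : W S) (i : ℕ) : (s ^ i).sh = i * s.sh := by
  induction i with
  | zero => simp [one_sh]
  | succ i ih => rw [pow_succ, mul_sh, ih]; push_cast; ring

/-- elements of the form `x⁻¹ ψ x` have shift zero -/
theorem conj_sh' (x ψ : W S) (hψ : ψ.sh = 0) : (x⁻¹ * ψ * x).sh = 0 := conj_sh x ψ hψ

variable [Finite S] [IsSimpleGroup S]

/-- The key theorem (positive shift). -/
theorem key_pos (hS : ¬ ∀ x y : S, x * y = y * x) {r : ℕ} (hr : 0 < r) (v : ℕ → S) (x0 : S)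
    (hv : ∀ p q τ : S, ∃ i, i < r ∧ pp p q v i = τ)
    {H : Type} [Group H] (ι : H →* W S) (hι : Function.Injective ι)
    (hG : ∀ h, ι h ∈ GG (aZ r v x0)) (f s : H) (hf : (ι f).sh = 0) (hs : 0 < (ι s).sh) :
    ∃ (K : Type) (_ : Group K) (j : K →* H) (f0 : K), commutator K = ⊤ ∧ j f0 = f := by
  -- common radius
  obtain ⟨l1, hl1, hL1⟩ := local_of_mem (hG f)
  obtain ⟨l2, hl2, hL2⟩ := local_of_mem (hG s)
  obtain ⟨l, hl0, hlf, hls⟩ : ∃ l : ℤ, 0 ≤ l ∧ Local (aZ r v x0) l (ι f).fn ∧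
      Local (aZ r v x0) l (ι s).fn :=
    ⟨max l1 l2, by omega, hL1.mono (le_max_left _ _), hL2.mono (le_max_right _ _)⟩
  clear hL1 hL2
  set m : ℤ := (ι s).sh with hm
  -- choose the level
  obtain ⟨n, hn1, hnm, hnl⟩ : ∃ n : ℕ, 1 ≤ n ∧ m.toNat ≤ n ∧ (4 * l).toNat ≤ n :=
    ⟨max 1 (max m.toNat (4 * l).toNat), by omega, by omega, by omega⟩
  have hlD : 4 * l ≤ DD r n := by
    have := lt_DD hr n
    omega
  obtain ⟨q, hq⟩ : m.toNat ∣ DD r n := dvd_DD (by omega) hnm
  have hqm : (q : ℤ) * m = DD r n := by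
    have h1 : (m.toNat : ℤ) = m := Int.toNat_of_nonneg hs.le
    rw [hq]; push_cast; rw [h1]; ring
  -- the finite group `T`
  let A : Set H := (fun i : ℤ => (s ^ i)⁻¹ * f * s ^ i) '' (Set.Icc (-(q * r : ℤ)) (q * r : ℤ))
  have hAfin : A.Finite := (Set.finite_Icc _ _).image _
  let T : Subgroup H := Subgroup.closure A
  have hTsh : ∀ k : T, (ι.comp T.subtype k).sh = 0 := by
    rintro ⟨k, hk⟩
    have : T ≤ (shHom.comp ι).ker := by
      rw [Subgroup.closure_le]
      rintro _ ⟨i, _, rfl⟩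
      show shHom (ι _) = 1
      rw [shHom_eq_one, map_mul, map_mul, map_inv]
      exact conj_sh' _ _ hf
    exact shHom_eq_one.1 (this hk)
  have hTinj : Function.Injective (ι.comp T.subtype) := hι.comp T.subtype_injective
  have hTfg : Group.FG T := by
    rw [Group.fg_iff_subgroup_fg]
    exact ⟨hAfin.toFinset, by simp [T]⟩
  have hTfin : Finite T :=
    finite_of_fg (evHom (ι.comp T.subtype) hTsh) (ev_inj _ hTsh hTinj)
  have hfT : f ∈ T := by
    apply Subgroup.subset_closure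
    have h0 : (0 : ℤ) ≤ q * r := by positivity
    exact ⟨0, ⟨by omega, h0⟩, by simp⟩
  let fT : T := ⟨f, hfT⟩
  refine ⟨Subgroup.normalClosure {fT}, inferInstance,
    T.subtype.comp (Subgroup.normalClosure {fT}).subtype,
    ⟨fT, Subgroup.subset_normalClosure rfl⟩, ?_, rfl⟩
  apply normalClosure_perfect hS (evHom (ι.comp T.subtype) hTsh) (ev_inj _ hTsh hTinj)
  intro x hx
  -- `x` is in the support of `f`
  change (ι f).fn x ≠ 1 at hx
  obtain ⟨i, hi1, hi2, hix⟩ : ∃ i : ℤ, -l ≤ i ∧ i ≤ l ∧ aZ r v x0 (x + i) ≠ 1 := by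
    by_contra hcon
    push Not at hcon
    exact hx (hlf.2 x hcon)
  obtain ⟨b, F, hC, hb1, hb2⟩ := exists_copy hr v x0 (n + 1) (x + i) hix
  have hDpos := DD_pos hr n
  have hD1pos := DD_pos hr (n + 1)
  have hix2 : aZ r v x0 (x + i - b) ≠ 1 := by
    intro hcon
    apply hix
    have := hC (x + i - b) (by omega) (by omega)
    rw [hcon] at this
    simpa using this
  obtain ⟨k, j', hk, hj'0, hj'1, hxe, hj'a⟩ := aZ_digit hr v x0 n (x + i - b) (by omega) (by omega) hix2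
  have hj'h : 2 * j' < DD r n := by
    by_contra hcon
    apply hj'a
    obtain ⟨n', rfl⟩ : ∃ n', n = n' + 1 := ⟨n - 1, by omega⟩
    exact aZ_half hr v x0 n' j' (by omega) hj'1
  obtain ⟨j, hj⟩ : ∃ j : ℤ, j = j' - i := ⟨_, rfl⟩
  have hj1 : -l ≤ j := by omega
  have hj2 : j + l < DD r n := by omega
  have hx' : x = b + k * DD r n + j := by omega
  obtain ⟨γ, γ', hprog⟩ := hh_progression hr v x0 hls hC m hs q hqm hlD j hj1 hj2
  -- value of f on the progression
  have hfv : ∀ e : ℕ, e < r → (ι f).fn (b + e * DD r n + j) =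
      (F * uu v e) * (ι f).fn j * (F * uu v e)⁻¹ := by
    intro e he
    exact local_copy hlf (hC.sub hr v x0 he) j (by omega) (by omega)
  have hz : (ι f).fn j ≠ 1 := by
    intro hcon
    apply hx
    rw [hx', hfv k hk, hcon]
    simp
  -- conj values at the base point
  have hbase : ∀ e : ℕ, e < r → (((ι s) ^ (q * e))⁻¹ * ι f * (ι s) ^ (q * e)).fn (b + j) =
      F * pp γ γ' v e * (ι f).fn j * (pp γ γ' v e)⁻¹ * F⁻¹ := by
    intro e he
    rw [conj_pow _ _ _ hf, ← hm, hprog e he]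
    have : b + j + ((q * e : ℕ) : ℤ) * m = b + e * DD r n + j := by
      push_cast; rw [← hqm]; ring
    rw [this, hfv e he]
    group
  -- the range
  have hmem : ∀ τ : S, (hh (ι s).fn m (q * k) (b + j) * F) * τ * (ι f).fn j * τ⁻¹ *
      (hh (ι s).fn m (q * k) (b + j) * F)⁻¹ ∈
      (evHom (ι.comp T.subtype) hTsh x).range := by
    intro τ
    obtain ⟨e, he, heτ⟩ := hv γ γ' τ
    let c : ℤ := (q * e : ℤ) - (q * k : ℤ)
    have hcA : (s ^ c)⁻¹ * f * s ^ c ∈ T := by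
      apply Subgroup.subset_closure
      refine ⟨c, ?_, rfl⟩
      have h1 : (q : ℤ) * e ≤ q * r := by
        apply mul_le_mul_of_nonneg_left _ (by positivity)
        exact_mod_cast he.le
      have h2 : (q : ℤ) * k ≤ q * r := by
        apply mul_le_mul_of_nonneg_left _ (by positivity)
        exact_mod_cast hk.le
      have h3 : (0 : ℤ) ≤ q * e := by positivity
      have h4 : (0 : ℤ) ≤ q * k := by positivity
      constructor
      · show -((q : ℤ) * r) ≤ q * e - q * k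
        omega
      · show (q : ℤ) * e - q * k ≤ q * r
        omega
    refine ⟨⟨_, hcA⟩, ?_⟩
    show (ι ((s ^ c)⁻¹ * f * s ^ c)).fn x = _
    have hψ0 : (ι ((s ^ c)⁻¹ * f * s ^ c)).sh = 0 := by
      rw [map_mul, map_mul, map_inv]; exact conj_sh' _ _ hf
    have h1 := conj_pow (ι s) (q * k) (ι ((s ^ c)⁻¹ * f * s ^ c)) hψ0 (b + j)
    have h2 : ((ι s) ^ (q * k))⁻¹ * ι ((s ^ c)⁻¹ * f * s ^ c) * (ι s) ^ (q * k) =
        ((ι s) ^ (q * e))⁻¹ * ι f * (ι s) ^ (q * e) := by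
      rw [← map_pow, ← map_pow, ← map_inv, ← map_inv, ← map_mul, ← map_mul, ← map_mul, ← map_mul]
      congr 1
      have h3 : s ^ c * s ^ (q * k) = s ^ (q * e) := by
        rw [← zpow_natCast s (q * k), ← zpow_natCast s (q * e), ← zpow_add]
        congr 1
        simp only [c]; push_cast; ring
      rw [← h3]; group
    rw [h2, hbase e he, ← hm, heτ] at h1
    have h4 : b + j + ((q * k : ℕ) : ℤ) * m = x := by
      rw [hx']; push_cast; rw [← hqm]; ring
    rw [h4] at h1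
    have h5 : (ι ((s ^ c)⁻¹ * f * s ^ c)).fn x =
        hh (ι s).fn m (q * k) (b + j) * ((hh (ι s).fn m (q * k) (b + j))⁻¹ *
          (ι ((s ^ c)⁻¹ * f * s ^ c)).fn x * hh (ι s).fn m (q * k) (b + j)) *
          (hh (ι s).fn m (q * k) (b + j))⁻¹ := by group
    rw [h5, ← h1]
    group
  rw [← MonoidHom.range_eq_top, eq_top_iff]
  have hnc : Subgroup.normalClosure {(ι f).fn j} = ⊤ := by
    rcases (Subgroup.normalClosure_normal (s := {(ι f).fn j})).eq_bot_or_eq_top with h | h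
    · exfalso
      apply hz
      have : (ι f).fn j ∈ Subgroup.normalClosure {(ι f).fn j} :=
        Subgroup.subset_normalClosure rfl
      rw [h, Subgroup.mem_bot] at this
      exact this
    · exact h
  rw [← hnc, Subgroup.normalClosure, Subgroup.closure_le]
  intro w hw
  rw [Group.mem_conjugatesOfSet_iff] at hw
  obtain ⟨z, hz1, hz2⟩ := hw
  rw [Set.mem_singleton_iff] at hz1
  subst hz1
  rw [isConj_iff] at hz2
  obtain ⟨c, rfl⟩ := hz2
  have := hmem ((hh (ι s).fn m (q * k) (b + j) * F)⁻¹ * c)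
  have h6 : (hh (ι s).fn m (q * k) (b + j) * F) * ((hh (ι s).fn m (q * k) (b + j) * F)⁻¹ * c) *
      (ι f).fn j * ((hh (ι s).fn m (q * k) (b + j) * F)⁻¹ * c)⁻¹ *
      (hh (ι s).fn m (q * k) (b + j) * F)⁻¹ = c * (ι f).fn j * c⁻¹ := by group
  rwa [h6] at this

/-- The key theorem. -/
theorem key (hS : ¬ ∀ x y : S, x * y = y * x) {r : ℕ} (hr : 0 < r) (v : ℕ → S) (x0 : S)
    (hv : ∀ p q τ : S, ∃ i, i < r ∧ pp p q v i = τ)
    {H : Type} [Group H] (ι : H →* W S) (hι : Function.Injective ι)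
    (hG : ∀ h, ι h ∈ GG (aZ r v x0)) (f s : H) (hf : (ι f).sh = 0) (hs : (ι s).sh ≠ 0) :
    ∃ (K : Type) (_ : Group K) (j : K →* H) (f0 : K), commutator K = ⊤ ∧ j f0 = f := by
  rcases lt_or_gt_of_ne hs with h | h
  · apply key_pos hS hr v x0 hv ι hι hG f s⁻¹ hf
    rw [map_inv, inv_sh]; omega
  · exact key_pos hS hr v x0 hv ι hι hG f s hf h

/-- consequence: homomorphisms to groups with trivial derived term kill the elements with zero shift -/
theorem key_solvable (hS : ¬ ∀ x y : S, x * y = y * x) {r : ℕ} (hr : 0 < r) (v : ℕ → S) (x0 : S)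
    (hv : ∀ p q τ : S, ∃ i, i < r ∧ pp p q v i = τ)
    {H : Type} [Group H] (ι : H →* W S) (hι : Function.Injective ι)
    (hG : ∀ h, ι h ∈ GG (aZ r v x0)) (f s : H) (hf : (ι f).sh = 0) (hs : (ι s).sh ≠ 0)
    {Q : Type*} [Group Q] (n : ℕ) (hQ : derivedSeries Q n = ⊥) (ψ : H →* Q) : ψ f = 1 := by
  obtain ⟨K, _, j, f0, hK, rfl⟩ := key hS hr v x0 hv ι hι hG f s hf hs
  exact perfect_map_trivial hK n hQ (ψ.comp j) f0

end Main

end Pool.Agent.MP_cb8b78_al
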