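import Mathlib
import Pool.Agent.Work.MP_cb8b78_al.Key

/-! Final assembly for MP_cb8b78_al. -/

set_option autoImplicit false

namespace Pool.Agent.MP_cb8b78_al

open W

section EA

variable {S : Type} [Group S] [Finite S]

/-- finitely generated groups embedded in the shift-zero part are finite -/
theorem finite_of_fg_shift_zero {K : Type} [Group K] [Group.FG K] (ι : K →* W S)
    (h : ∀ k, (ι k).sh = 0) (hι : Function.Injective ι) : Finite K :=
  finite_of_fg (evHom ι h) (ev_inj ι h hι)

theorem ambient_EA (P : ∀ (H : Type) [Group H], Prop)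
      (h1 : ∀ (H : Type) [Group H] [Finite H], P H)
      (h2 : ∀ (H : Type) [CommGroup H], P H)
      (h3 : ∀ (H K : Type) [Group H] [Group K], Nonempty (H ≃* K) → P H → P K)
      (h4 : ∀ (H : Type) [Group H] (K : Subgroup H), P H → P K)
      (_h5 : ∀ (H : Type) [Group H] (N : Subgroup H) [N.Normal], P H → P (H ⧸ N))
      (h6 : ∀ (H : Type) [Group H] (N : Subgroup H) [N.Normal], P N → P (H ⧸ N) → P H)
      (h7 : ∀ (H : Type) [Group H] (S : Set (Subgroup H)),
        DirectedOn (fun A B => A ≤ B) S → sSup S = ⊤ → (∀ K ∈ S, P K) → P H) :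
    P (W S) := by
  apply h6 (W S) (shHom : W S →* Multiplicative ℤ).ker
  · apply h7 _ {K | K.FG}
    · intro A hA B hB
      exact ⟨A ⊔ B, Subgroup.FG.sup hA hB, le_sup_left, le_sup_right⟩
    · rw [eq_top_iff]
      intro x _
      have hx : Subgroup.closure {x} ∈ {K : Subgroup (shHom : W S →* Multiplicative ℤ).ker | K.FG} :=
        ⟨{x}, by simp⟩
      exact (le_sSup hx) (Subgroup.subset_closure rfl)
    · intro K hK
      have hKf : Group.FG K := (Group.fg_iff_subgroup_fg K).2 hK
      have : Finite K := finite_of_fg_shift_zero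
        ((shHom : W S →* Multiplicative ℤ).ker.subtype.comp K.subtype)
        (fun k => shHom_eq_one.1 k.1.2)
        ((Subgroup.subtype_injective _).comp (Subgroup.subtype_injective _))
      exact h1 K
  · apply h3 _ _ ⟨(QuotientGroup.quotientKerEquivRange (shHom : W S →* Multiplicative ℤ)).symm⟩
    exact h4 _ _ (h2 (Multiplicative ℤ))

end EA

section

variable {S : Type} [Group S]

theorem gT_pow (k : ℕ) : (gT : W S) ^ k = ⟨fun _ => 1, k⟩ := by
  induction k with
  | zero => rfl
  | succ k ih =>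
    rw [pow_succ, ih]
    ext j
    · simp [mul_fn, gT]
    · simp [mul_sh, gT]

theorem fg_GG (a : ℤ → S) : Group.FG (GG a) := by
  rw [Group.fg_iff_subgroup_fg]
  classical
  exact ⟨{gA a, gT}, by simp [GG]⟩

end

section Final

variable {S : Type} [Group S] [Finite S] [IsSimpleGroup S]

theorem not_virt_nilpotent (hS : ¬ ∀ x y : S, x * y = y * x) {r : ℕ} (hr : 0 < r) (v : ℕ → S)
    (x0 : S) (hx0 : x0 ≠ 1) (hv : ∀ p q τ : S, ∃ i, i < r ∧ pp p q v i = τ) :
    ¬ ∃ K : Subgroup (GG (aZ r v x0)), K.FiniteIndex ∧ Group.IsNilpotent K := by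
  rintro ⟨K, hK1, hK2⟩
  let a' : GG (aZ r v x0) := ⟨gA (aZ r v x0), Subgroup.subset_closure (by simp)⟩
  let t' : GG (aZ r v x0) := ⟨gT, Subgroup.subset_closure (by simp)⟩
  have hfi : K.normalCore.FiniteIndex := Subgroup.finiteIndex_normalCore K
  obtain ⟨k, hk0, _, hk⟩ := Subgroup.exists_pow_mem_of_index_ne_zero hfi.index_ne_zero t'
  have hf : t' ^ k * (a' * (t' ^ k)⁻¹ * a'⁻¹) ∈ K.normalCore :=
    Subgroup.mul_mem _ hk ((Subgroup.normalCore_normal K).conj_mem _ (Subgroup.inv_mem _ hk) a')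
  have hkK := Subgroup.normalCore_le K hk
  have hfK := Subgroup.normalCore_le K hf
  have hsol : Group.IsSolvable K := inferInstance
  obtain ⟨n, hn⟩ := hsol.solvable
  have hpow : ((t' ^ k : GG (aZ r v x0)) : W S) = ⟨fun _ => 1, k⟩ := by
    rw [← gT_pow]; rfl
  have hfw : ((t' ^ k * (a' * (t' ^ k)⁻¹ * a'⁻¹) : GG (aZ r v x0)) : W S) =
      (⟨fun _ => 1, k⟩ : W S) * (gA (aZ r v x0) * (⟨fun _ => 1, k⟩ : W S)⁻¹ * (gA (aZ r v x0))⁻¹) := by
    rw [← hpow]; rfl
  have h := key_solvable hS hr v x0 hv ((GG (aZ r v x0)).subtype.comp K.subtype)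
    ((Subgroup.subtype_injective _).comp (Subgroup.subtype_injective _)) (fun h => h.1.2)
    ⟨_, hfK⟩ ⟨_, hkK⟩
    (by
      show ((t' ^ k * (a' * (t' ^ k)⁻¹ * a'⁻¹) : GG (aZ r v x0)) : W S).sh = 0
      rw [hfw]
      simp only [mul_sh, inv_sh, gA]
      ring)
    (by
      show ((t' ^ k : GG (aZ r v x0)) : W S).sh ≠ 0
      rw [hpow]
      simp only [ne_eq, Nat.cast_eq_zero]
      omega)
    n hn (MonoidHom.id K)
  have h2 : ((t' ^ k * (a' * (t' ^ k)⁻¹ * a'⁻¹) : GG (aZ r v x0)) : W S) = 1 := by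
    have := congrArg (fun z : K => ((z : GG (aZ r v x0)) : W S)) h
    exact this
  rw [hfw] at h2
  have h3 := congrArg (fun w : W S => w.fn 0) h2
  simp only [mul_fn, inv_fn, mul_sh, inv_sh, gA, one_fn, zero_sub, one_mul, inv_one, mul_one] at h3
  rw [aZ_neg v x0 _ (by omega), one_mul] at h3
  have h4 : (-(k : ℤ) - (0 + -(k : ℤ)) + 0) = 0 := by ring
  rw [h4, aZ_zero] at h3
  exact hx0 (inv_eq_one.1 h3)

theorem sections (hS : ¬ ∀ x y : S, x * y = y * x) {r : ℕ} (hr : 0 < r) (v : ℕ → S)
    (x0 : S) (hv : ∀ p q τ : S, ∃ i, i < r ∧ pp p q v i = τ)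
    (H : Subgroup (GG (aZ r v x0))) (N : Subgroup H) [N.Normal] (hFG : Group.FG (H ⧸ N))
    (hd : derivedSeries (H ⧸ N) 2 = ⊥) :
    ∃ K : Subgroup (H ⧸ N), K.FiniteIndex ∧ Group.IsNilpotent K := by
  let ι : H →* W S := (GG (aZ r v x0)).subtype.comp H.subtype
  have hι : Function.Injective ι :=
    (Subgroup.subtype_injective _).comp (Subgroup.subtype_injective _)
  by_cases hs : ∃ s : H, (ι s).sh ≠ 0
  · obtain ⟨s, hs⟩ := hs
    have hker : ∀ f : H, (ι f).sh = 0 → QuotientGroup.mk' N f = 1 := fun f hf =>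
      key_solvable hS hr v x0 hv ι hι (fun h => h.1.2) f s hf hs 2 hd (QuotientGroup.mk' N)
    have hcomm : ∀ x y : H ⧸ N, x * y = y * x := by
      intro x y
      obtain ⟨x, rfl⟩ := QuotientGroup.mk'_surjective N x
      obtain ⟨y, rfl⟩ := QuotientGroup.mk'_surjective N y
      have := hker (x * y * (y * x)⁻¹) (by
        simp only [map_mul, map_inv, mul_sh, inv_sh]; ring)
      rw [map_mul, map_inv] at this
      rw [← map_mul, ← map_mul]
      exact mul_inv_eq_one.1 this
    have hnil : Group.IsNilpotent (H ⧸ N) := by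
      letI : CommGroup (H ⧸ N) := { (inferInstance : Group (H ⧸ N)) with mul_comm := hcomm }
      exact CommGroup.isNilpotent
    exact ⟨⊤, inferInstance, inferInstance⟩
  · push Not at hs
    have hfin : Finite (H ⧸ N) := by
      obtain ⟨A, hA, hAf⟩ := Group.fg_iff.1 hFG
      let B : Set H := Function.surjInv (QuotientGroup.mk'_surjective N) '' A
      have hBf : B.Finite := hAf.image _
      have hmk : QuotientGroup.mk' N '' B = A := by
        rw [Set.image_image]
        simp [Function.surjInv_eq]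
      have hBfg : Group.FG (Subgroup.closure B) := by
        rw [Group.fg_iff_subgroup_fg]
        exact ⟨hBf.toFinset, by simp⟩
      have hfinB : Finite (Subgroup.closure B) :=
        finite_of_fg_shift_zero (ι.comp (Subgroup.closure B).subtype) (fun k => hs k.1)
          (hι.comp (Subgroup.subtype_injective _))
      refine Finite.of_surjective
        ((QuotientGroup.mk' N).comp (Subgroup.closure B).subtype) ?_
      rw [← MonoidHom.range_eq_top, MonoidHom.range_comp, Subgroup.range_subtype,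
        MonoidHom.map_closure, hmk, hA]
    exact ⟨⊥, inferInstance, inferInstance⟩

end Final

end Pool.Agent.MP_cb8b78_al
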