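import Mathlib

set_option autoImplicit false

namespace Pool.Agent.MPcb8b78

open scoped commutatorElement

/-- torsion elements almost commute in nilpotent groups -/
theorem nilp_torsion_comm (M : Type) [Group M] [Group.IsNilpotent M] :
    ∀ (f g : M) (n : ℕ), 0 < n → f ^ n = 1 → ∃ E : ℕ, 0 < E ∧ g ^ E * f * (g ^ E)⁻¹ = f := by
  refine Group.nilpotent_center_quotient_ind (P := fun M _ _ => ∀ (f g : M) (n : ℕ), 0 < n →
    f ^ n = 1 → ∃ E : ℕ, 0 < E ∧ g ^ E * f * (g ^ E)⁻¹ = f) M ?_ ?_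
  · intro M _ _ f g n hn hf
    exact ⟨1, one_pos, Subsingleton.elim _ _⟩
  · intro M _ _ ih f g n hn hf
    obtain ⟨E1, hE1, h⟩ := ih (QuotientGroup.mk f) (QuotientGroup.mk g) n hn (by
      rw [← QuotientGroup.mk_pow, hf, QuotientGroup.mk_one])
    have hz : (g ^ E1 * f * (g ^ E1)⁻¹) * f⁻¹ ∈ Subgroup.center M := by
      rw [← QuotientGroup.eq_one_iff]
      rw [QuotientGroup.mk_mul, QuotientGroup.mk_inv]
      rw [mul_inv_eq_one]
      exact_mod_cast h
    set z := (g ^ E1 * f * (g ^ E1)⁻¹) * f⁻¹ with hzdef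
    set u := g ^ E1 with hu
    have hzc : ∀ y : M, Commute z y := fun y => ((Subgroup.mem_center_iff.mp hz y).symm : z * y = y * z)
    have h1 : u * f * u⁻¹ = z * f := by rw [hzdef]; group
    have h2 : z ^ n = 1 := by
      have h3 : (u * f * u⁻¹) ^ n = 1 := by rw [conj_pow, hf]; group
      rw [h1, (hzc f).mul_pow, hf, mul_one] at h3
      exact h3
    have h4 : ∀ k : ℕ, u ^ k * f * (u ^ k)⁻¹ = z ^ k * f := by
      intro k
      induction k with
      | zero => simp
      | succ k ihk =>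
        have e1 : u ^ (k + 1) * f * (u ^ (k + 1))⁻¹ = u ^ k * (u * f * u⁻¹) * (u ^ k)⁻¹ := by
          rw [pow_succ]; group
        have e2 : u ^ k * (z * f) * (u ^ k)⁻¹ = z * (u ^ k * f * (u ^ k)⁻¹) := by
          rw [← mul_assoc (u ^ k) z f, ← (hzc (u ^ k)).eq]; group
        rw [e1, h1, e2, ihk, pow_succ']
        group
    refine ⟨E1 * n, by positivity, ?_⟩
    rw [pow_mul, ← hu, h4, h2, one_mul]

/-- In a metabelian group with relations of exponents 2 and 3, powers commute. -/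
theorem metab_comm (H : Type) [Group H]
    (hab : ∀ a b c d : H, Commute (a * b * a⁻¹ * b⁻¹) (c * d * c⁻¹ * d⁻¹))
    (s f : H) (l e : ℕ) (h : (s ^ e * f * (s ^ e)⁻¹ * f⁻¹) ^ l = 1) (k : ℕ) :
    (s ^ (e * k) * f * (s ^ (e * k))⁻¹ * f⁻¹) ^ l = 1 := by
  induction k with
  | zero => simp
  | succ k ih =>
    have e1 : s ^ (e * (k + 1)) * f * (s ^ (e * (k + 1)))⁻¹ * f⁻¹
        = (s ^ e * (s ^ (e * k) * f * (s ^ (e * k))⁻¹ * f⁻¹) * (s ^ e)⁻¹)
          * (s ^ e * f * (s ^ e)⁻¹ * f⁻¹) := by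
      have : e * (k + 1) = e + e * k := by ring
      rw [this, pow_add]; group
    have e2 : s ^ e * (s ^ (e * k) * f * (s ^ (e * k))⁻¹ * f⁻¹) * (s ^ e)⁻¹
        = (s ^ (e * k)) * (s ^ e * f * (s ^ e)⁻¹) * (s ^ (e * k))⁻¹ * (s ^ e * f * (s ^ e)⁻¹)⁻¹ := by
      have : s ^ e * s ^ (e * k) = s ^ (e * k) * s ^ e := by
        rw [← pow_add, ← pow_add, add_comm]
      have h3 : (s ^ e) * (s ^ (e * k))⁻¹ = (s ^ (e * k))⁻¹ * s ^ e := by
        rw [mul_inv_eq_iff_eq_mul, mul_assoc, this]; group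
      calc s ^ e * (s ^ (e * k) * f * (s ^ (e * k))⁻¹ * f⁻¹) * (s ^ e)⁻¹
          = (s ^ e * s ^ (e * k)) * f * ((s ^ (e * k))⁻¹ * (s ^ e)⁻¹) * (s ^ e * f⁻¹ * (s ^ e)⁻¹) := by
            group
        _ = (s ^ (e * k) * s ^ e) * f * ((s ^ e)⁻¹ * (s ^ (e * k))⁻¹) * (s ^ e * f⁻¹ * (s ^ e)⁻¹) := by
            rw [this, ← mul_inv_rev, ← mul_inv_rev, this]
        _ = _ := by group
    rw [e1, Commute.mul_pow]
    · rw [h, mul_one, conj_pow, ih]; group
    · rw [e2]; exact hab _ _ _ _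

theorem metab_powers (H : Type) [Group H]
    (hab : ∀ a b c d : H, Commute (a * b * a⁻¹ * b⁻¹) (c * d * c⁻¹ * d⁻¹))
    (h2 : ∀ s f : H, ∃ e : ℕ, 0 < e ∧ (s ^ e * f * (s ^ e)⁻¹ * f⁻¹) ^ 2 = 1)
    (h3 : ∀ s f : H, ∃ e : ℕ, 0 < e ∧ (s ^ e * f * (s ^ e)⁻¹ * f⁻¹) ^ 3 = 1)
    (s f : H) : ∃ e : ℕ, 0 < e ∧ Commute (s ^ e) f := by
  obtain ⟨e, he, h⟩ := h2 s f
  obtain ⟨e', he', h'⟩ := h3 s f
  refine ⟨e * e', by positivity, ?_⟩
  have a := metab_comm H hab s f 2 e h e'
  have b := metab_comm H hab s f 3 e' h' e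
  rw [mul_comm e' e] at b
  have c : s ^ (e * e') * f * (s ^ (e * e'))⁻¹ * f⁻¹ = 1 := by
    rw [pow_succ, a, one_mul] at b
    exact b
  rw [mul_inv_eq_one, mul_inv_eq_iff_eq_mul] at c
  exact c

/-- FG group in which every pair has commuting powers is center-by-torsion. -/
theorem exists_central_power (H : Type) [Group H] [Group.FG H]
    (h : ∀ s f : H, ∃ e : ℕ, 0 < e ∧ Commute (s ^ e) f) (s : H) :
    ∃ e : ℕ, 0 < e ∧ s ^ e ∈ Subgroup.center H := by
  obtain ⟨S, hS, hfin⟩ := Group.fg_iff.mp (inferInstance : Group.FG H)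
  have key : ∀ T : Set H, T.Finite → ∃ e : ℕ, 0 < e ∧ ∀ f ∈ T, Commute (s ^ e) f := by
    intro T hT
    induction T, hT using Set.Finite.induction_on with
    | empty => exact ⟨1, one_pos, by simp⟩
    | insert _ _ ih =>
      rename_i a T _ _
      obtain ⟨e, he, h1⟩ := ih
      obtain ⟨e', he', h2⟩ := h s a
      refine ⟨e * e', by positivity, ?_⟩
      intro f hf
      rcases Set.mem_insert_iff.mp hf with rfl | hf
      · rw [mul_comm, pow_mul]; exact h2.pow_left _
      · rw [pow_mul]; exact (h1 f hf).pow_left _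
  obtain ⟨e, he, h1⟩ := key S hfin
  refine ⟨e, he, ?_⟩
  have h2 : Subgroup.closure S ≤ Subgroup.centralizer {s ^ e} := by
    rw [Subgroup.closure_le]
    intro f hf
    rw [SetLike.mem_coe, Subgroup.mem_centralizer_singleton_iff]
    exact (h1 f hf).symm
  rw [hS] at h2
  rw [Subgroup.mem_center_iff]
  intro g
  have := h2 (Subgroup.mem_top g)
  rw [Subgroup.mem_centralizer_singleton_iff] at this
  exact this

theorem commute_of_derived (H : Type) [Group H] (h : derivedSeries H 2 = ⊥) (a b : H)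
    (ha : a ∈ commutator H) (hb : b ∈ commutator H) : Commute a b := by
  have h1 : ⁅a, b⁆ ∈ derivedSeries H 2 := by
    rw [derivedSeries_succ, derivedSeries_one]
    exact Subgroup.commutator_mem_commutator ha hb
  rw [h, Subgroup.mem_bot, commutatorElement_eq_one_iff_commute] at h1
  exact h1

/-- finitely generated metabelian torsion groups are finite -/
theorem finite_of_metab_torsion (H : Type) [Group H] [Group.FG H]
    (h : ∀ a b : H, a ∈ commutator H → b ∈ commutator H → Commute a b)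
    (ht : ∀ a : H, ∃ n : ℕ, 0 < n ∧ a ^ n = 1) : Finite H := by
  have h1 : Finite (Abelianization H) := by
    have : Group.FG (Abelianization H) := Group.fg_of_surjective (f := Abelianization.of)
      (QuotientGroup.mk'_surjective _)
    apply CommGroup.finite_of_fg_isMulTorsion
    intro a
    obtain ⟨b, rfl⟩ : ∃ b, Abelianization.of b = a := QuotientGroup.mk'_surjective _ a
    obtain ⟨n, hn, hb⟩ := ht b
    exact isOfFinOrder_iff_pow_eq_one.mpr ⟨n, hn, by rw [← map_pow, hb, map_one]⟩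
  have h2 : Finite (H ⧸ commutator H) := h1
  have h3 : (commutator H).FiniteIndex := Subgroup.finiteIndex_of_finite_quotient
  have h4 : Group.FG (commutator H) := inferInstance
  let _inst : CommGroup (commutator H) :=
    { (inferInstance : Group (commutator H)) with
      mul_comm := fun a b => Subtype.ext (h a b a.2 b.2) }
  have h5 : Finite (commutator H) := by
    apply CommGroup.finite_of_fg_isMulTorsion
    intro a
    obtain ⟨n, hn, hb⟩ := ht a
    exact isOfFinOrder_iff_pow_eq_one.mpr ⟨n, hn, Subtype.ext (by simpa using hb)⟩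
  exact (commutator H).finite_iff_finite_and_finiteIndex.mpr ⟨h5, h3⟩

/-- The conclusion on sections. -/
theorem vnilp_of_metab (H : Type) [Group H] [Group.FG H] (hd : derivedSeries H 2 = ⊥)
    (h2 : ∀ s f : H, ∃ e : ℕ, 0 < e ∧ (s ^ e * f * (s ^ e)⁻¹ * f⁻¹) ^ 2 = 1)
    (h3 : ∀ s f : H, ∃ e : ℕ, 0 < e ∧ (s ^ e * f * (s ^ e)⁻¹ * f⁻¹) ^ 3 = 1) :
    ∃ K : Subgroup H, K.FiniteIndex ∧ Group.IsNilpotent K := by
  have hcm := commute_of_derived H hd
  have hab : ∀ a b c d : H, Commute (a * b * a⁻¹ * b⁻¹) (c * d * c⁻¹ * d⁻¹) := by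
    intro a b c d
    have hm : ∀ a b : H, a * b * a⁻¹ * b⁻¹ ∈ commutator H := fun a b =>
      Subgroup.commutator_mem_commutator (Subgroup.mem_top a) (Subgroup.mem_top b)
    exact hcm _ _ (hm a b) (hm c d)
  have hc := exists_central_power H (metab_powers H hab h2 h3)
  have hfin : Finite (H ⧸ Subgroup.center H) := by
    apply finite_of_metab_torsion
    · intro a b ha hb
      have hmap : (commutator H).map (QuotientGroup.mk' (Subgroup.center H))
          = commutator (H ⧸ Subgroup.center H) := by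
        rw [commutator_def, commutator_def, Subgroup.map_commutator,
          Subgroup.map_top_of_surjective _ (QuotientGroup.mk'_surjective _)]
      rw [← hmap] at ha hb
      obtain ⟨a', ha', rfl⟩ := ha
      obtain ⟨b', hb', rfl⟩ := hb
      exact (hcm a' b' ha' hb').map _
    · intro a
      obtain ⟨b, rfl⟩ := (QuotientGroup.mk'_surjective (Subgroup.center H)) a
      obtain ⟨e, he, hb⟩ := hc b
      refine ⟨e, he, ?_⟩
      rw [← map_pow]
      exact (QuotientGroup.eq_one_iff _).mpr hb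
  refine ⟨Subgroup.center H, Subgroup.finiteIndex_of_finite_quotient, ?_⟩
  let _inst : CommGroup (Subgroup.center H) :=
    { (inferInstance : Group (Subgroup.center H)) with
      mul_comm := fun a b => Subtype.ext ((Subgroup.mem_center_iff.mp b.2 a).trans rfl) }
  exact @CommGroup.isNilpotent _ _inst

end Pool.Agent.MPcb8b78
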