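import Mathlib

set_option autoImplicit false

namespace Pool.Agent.MPcb8b78

open RegularWreathProduct

section next
variable {Γ : Type} [Group Γ] {D : Type} [Group D]

/-- The subgroup generated by the conjugates `t^j x t^{-j}` with `1 ≤ j ≤ m`. -/
def Csub (x t : Γ) (m : ℕ) : Subgroup Γ :=
  Subgroup.closure {y | ∃ j : ℕ, 1 ≤ j ∧ j ≤ m ∧ y = t ^ j * x * (t ^ j)⁻¹}

open Classical in
/-- The function with value `d` on `C × {1}` and `1` elsewhere. -/
noncomputable def vfun (x t : Γ) (m L : ℕ) (d : D) : Γ × Multiplicative (ZMod L) → D :=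
  fun p => if p.1 ∈ Csub x t m ∧ p.2 = 1 then d else 1

/-- generator of the cyclic group -/
def zg (L : ℕ) : Multiplicative (ZMod L) := Multiplicative.ofAdd 1

/-- next `x` -/
def nx (D : Type) [Group D] (x : Γ) (L : ℕ) : D ≀ᵣ (Γ × Multiplicative (ZMod L)) := ⟨1, (x, 1)⟩

/-- next `t` -/
noncomputable def nt (x t : Γ) (m L : ℕ) (d : D) : D ≀ᵣ (Γ × Multiplicative (ZMod L)) :=
  ⟨vfun x t m L d, (t, zg L)⟩

/-- embedding of the old group -/
def emb (Γ : Type) [Group Γ] (D : Type) [Group D] (L : ℕ) :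
    Γ →* D ≀ᵣ (Γ × Multiplicative (ZMod L)) :=
  (inl : (Γ × Multiplicative (ZMod L)) →* D ≀ᵣ (Γ × Multiplicative (ZMod L))).comp
    (MonoidHom.inl Γ (Multiplicative (ZMod L)))

theorem emb_injective (L : ℕ) : Function.Injective (emb Γ D L) := by
  intro a b h
  have := congrArg (fun u => u.right.1) h
  simpa [emb] using this

theorem vfun_mul_left (x t : Γ) (m L : ℕ) (d : D) (c : Γ) (hc : c ∈ Csub x t m) (h : Γ)
    (k : Multiplicative (ZMod L)) :
    vfun x t m L d (c⁻¹ * h, k) = vfun x t m L d (h, k) := by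
  unfold vfun
  have : c⁻¹ * h ∈ Csub x t m ↔ h ∈ Csub x t m :=
    Subgroup.mul_mem_cancel_left _ (Subgroup.inv_mem _ hc)
  by_cases hh : h ∈ Csub x t m
  · have hh' := this.mpr hh
    simp only [hh, hh']
  · have hh' : c⁻¹ * h ∉ Csub x t m := fun q => hh (this.mp q)
    simp only [hh, hh', false_and]

theorem compat (x t : Γ) (m L : ℕ) (d : D) (j : ℕ) (hj : j ≤ m) :
    (nt x t m L d) ^ j * nx D x L * ((nt x t m L d) ^ j)⁻¹
      = emb Γ D L (t ^ j * x * (t ^ j)⁻¹) := by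
  induction j with
  | zero => simp [nx, emb]; rfl
  | succ j ih =>
    have h1 := ih (by omega)
    have e1 : (nt x t m L d) ^ (j + 1) * nx D x L * ((nt x t m L d) ^ (j + 1))⁻¹
        = (nt x t m L d) * ((nt x t m L d) ^ j * nx D x L * ((nt x t m L d) ^ j)⁻¹)
          * (nt x t m L d)⁻¹ := by
      rw [pow_succ']; group
    rw [e1, h1, mul_inv_eq_iff_eq_mul]
    have hc : t ^ (j + 1) * x * (t ^ (j + 1))⁻¹ ∈ Csub x t m :=
      Subgroup.subset_closure ⟨j + 1, by omega, hj, rfl⟩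
    apply RegularWreathProduct.ext
    · funext p
      obtain ⟨h, k⟩ := p
      simp only [mul_left, emb, nt, MonoidHom.coe_comp, Function.comp_apply, MonoidHom.inl_apply,
        left_inl, right_inl, Pi.mul_apply, Pi.one_apply, mul_one, one_mul, Prod.inv_mk,
        Prod.mk_mul_mk, inv_one]
      rw [vfun_mul_left x t m L d _ hc]
    · simp only [mul_right, emb, nt, MonoidHom.coe_comp, Function.comp_apply,
        MonoidHom.inl_apply, right_inl, Prod.mk_mul_mk, mul_one, one_mul, pow_succ']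
      congr 1
      group

theorem zg_pow_inj (L a b : ℕ) (ha : a < L) (hb : b < L) (h : zg L ^ a = zg L ^ b) : a = b := by
  have h1 : ((a : ℕ) : ZMod L) = ((b : ℕ) : ZMod L) := by
    have := congrArg Multiplicative.toAdd h
    simpa [zg, toAdd_pow] using this
  rw [ZMod.natCast_eq_natCast_iff'] at h1
  rwa [Nat.mod_eq_of_lt ha, Nat.mod_eq_of_lt hb] at h1

theorem nt_pow_right (x t : Γ) (m L : ℕ) (d : D) (j : ℕ) :
    ((nt x t m L d) ^ j).right = (t ^ j, zg L ^ j) := by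
  induction j with
  | zero => simp; rfl
  | succ j ih => rw [pow_succ, mul_right, ih, pow_succ, pow_succ]; rfl

open Classical in
theorem nt_pow_left (x t : Γ) (m L : ℕ) (d : D) (r : ℕ) (hr : r < L) (j : ℕ) (hj : j ≤ L) (h : Γ) :
    ((nt x t m L d) ^ j).left (h, zg L ^ r)
      = if r < j ∧ (t ^ r)⁻¹ * h ∈ Csub x t m then d else 1 := by
  induction j with
  | zero => simp
  | succ j ih =>
    rw [pow_succ, mul_left, Pi.mul_apply, ih (by omega), nt_pow_right]
    simp only [nt, vfun, Prod.inv_mk, Prod.mk_mul_mk]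
    by_cases hrj : r = j
    · subst hrj
      simp
    · have h1 : ¬ ((zg L ^ j)⁻¹ * zg L ^ r = 1) := by
        intro h2
        rw [inv_mul_eq_one] at h2
        exact hrj (zg_pow_inj L j r (by omega) hr h2).symm
      have h3 : r < j + 1 ↔ r < j := by omega
      simp only [h1, and_false, if_false, mul_one, h3]

theorem xj_left (x t : Γ) (m L : ℕ) (d : D) (j : ℕ) (h : Γ) (k : Multiplicative (ZMod L)) :
    ((nt x t m L d) ^ j * nx D x L * ((nt x t m L d) ^ j)⁻¹).left (h, k)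
      = ((nt x t m L d) ^ j).left (h, k)
        * (((nt x t m L d) ^ j).left ((t ^ j * x * (t ^ j)⁻¹)⁻¹ * h, k))⁻¹ := by
  simp only [mul_left, mul_right, inv_left, Pi.mul_apply, Pi.inv_apply, nt_pow_right, nx,
    Pi.one_apply, mul_one, Prod.mk_mul_mk, Prod.inv_mk]
  congr 3
  ext
  · simp [mul_assoc]
  · simp

theorem xj_right (x t : Γ) (m L : ℕ) (d : D) (j : ℕ) :
    ((nt x t m L d) ^ j * nx D x L * ((nt x t m L d) ^ j)⁻¹).right
      = (t ^ j * x * (t ^ j)⁻¹, 1) := by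
  simp only [mul_right, inv_right, nt_pow_right, nx, Prod.mk_mul_mk, Prod.inv_mk]
  ext
  · simp
  · simp

/-- The subgroup of elements trivial on the slice `r` -/
def Uslice (Γ : Type) [Group Γ] (D : Type) [Group D] (L r : ℕ) :
    Subgroup (D ≀ᵣ (Γ × Multiplicative (ZMod L))) where
  carrier := {u | u.right.2 = 1 ∧ ∀ h : Γ, u.left (h, zg L ^ r) = 1}
  one_mem' := by simp
  mul_mem' := by
    rintro a b ⟨ha1, ha2⟩ ⟨hb1, hb2⟩
    refine ⟨by simp [ha1, hb1], fun h => ?_⟩
    rw [mul_left, Pi.mul_apply, ha2]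
    have : (a.right⁻¹ * (h, zg L ^ r)) = (a.right.1⁻¹ * h, zg L ^ r) := by
      ext
      · simp
      · simp [ha1]
    rw [this, hb2, one_mul]
  inv_mem' := by
    rintro a ⟨ha1, ha2⟩
    refine ⟨by simp [ha1], fun h => ?_⟩
    simp only [inv_left, Pi.inv_apply]
    have : (a.right * (h, zg L ^ r)) = (a.right.1 * h, zg L ^ r) := by
      ext
      · simp
      · simp [ha1]
    rw [this, ha2, inv_one]

theorem next_mem_Csub (x t : Γ) (m : ℕ)
    (hs : t ^ m * x * (t ^ m)⁻¹ ∉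
      Subgroup.closure {y : Γ | ∃ j : ℕ, j < m ∧ y = t ^ j * x * (t ^ j)⁻¹}) :
    t ^ (m + 1) * x * (t ^ (m + 1))⁻¹ ∉ Csub x t m := by
  intro hmem
  have hle : Csub x t m ≤ (Subgroup.closure {y : Γ | ∃ j : ℕ, j < m ∧
      y = t ^ j * x * (t ^ j)⁻¹}).map (MulAut.conj t).toMonoidHom := by
    unfold Csub
    rw [Subgroup.closure_le]
    rintro y ⟨j, hj1, hj2, rfl⟩
    refine ⟨t ^ (j - 1) * x * (t ^ (j - 1))⁻¹, Subgroup.subset_closure ⟨j - 1, by omega, rfl⟩, ?_⟩
    obtain ⟨i, rfl⟩ : ∃ i, j = i + 1 := ⟨j - 1, by omega⟩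
    simp only [Nat.add_sub_cancel, MulEquiv.toMonoidHom_eq_coe, MonoidHom.coe_coe,
      MulAut.conj_apply, pow_succ']
    group
  obtain ⟨y, hy1, hy2⟩ := hle hmem
  apply hs
  have : y = t ^ m * x * (t ^ m)⁻¹ := by
    simp only [MulEquiv.toMonoidHom_eq_coe, MonoidHom.coe_coe, MulAut.conj_apply] at hy2
    have h2 : t * y * t⁻¹ = t * (t ^ m * x * (t ^ m)⁻¹) * t⁻¹ := by
      rw [hy2, pow_succ']; group
    have h3 := mul_right_cancel h2
    exact mul_left_cancel h3
  rwa [this] at hy1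

theorem next_strict (x t : Γ) (m : ℕ) (d : D) (hd : d ≠ 1)
    (hs : t ^ m * x * (t ^ m)⁻¹ ∉
      Subgroup.closure {y : Γ | ∃ j : ℕ, j < m ∧ y = t ^ j * x * (t ^ j)⁻¹}) (r L : ℕ)
    (hL : L = r + m + 1) :
    (nt x t m L d) ^ L * nx D x L * ((nt x t m L d) ^ L)⁻¹ ∉
      Subgroup.closure {y | ∃ j : ℕ, j < L ∧
        y = (nt x t m L d) ^ j * nx D x L * ((nt x t m L d) ^ j)⁻¹} := by
  classical
  intro hmem
  have hle : Subgroup.closure {y | ∃ j : ℕ, j < L ∧
        y = (nt x t m L d) ^ j * nx D x L * ((nt x t m L d) ^ j)⁻¹} ≤ Uslice Γ D L r := by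
    rw [Subgroup.closure_le]
    rintro y ⟨j, hj, rfl⟩
    refine ⟨by rw [xj_right], fun h => ?_⟩
    rw [xj_left, nt_pow_left x t m L d r (by omega) j (by omega),
      nt_pow_left x t m L d r (by omega) j (by omega)]
    by_cases hrj : r < j
    · have hc : t ^ (j - r) * x * (t ^ (j - r))⁻¹ ∈ Csub x t m :=
        Subgroup.subset_closure ⟨j - r, by omega, by omega, rfl⟩
      have e : (t ^ r)⁻¹ * ((t ^ j * x * (t ^ j)⁻¹)⁻¹ * h)
          = (t ^ (j - r) * x * (t ^ (j - r))⁻¹)⁻¹ * ((t ^ r)⁻¹ * h) := by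
        obtain ⟨i, rfl⟩ : ∃ i, j = r + i := ⟨j - r, by omega⟩
        have : r + i - r = i := by omega
        rw [this, pow_add]
        group
      rw [e, Subgroup.mul_mem_cancel_left _ (Subgroup.inv_mem _ hc), mul_inv_cancel]
    · simp [hrj]
  have h1 := (hle hmem).2 (t ^ r)
  rw [xj_left, nt_pow_left x t m L d r (by omega) L le_rfl,
      nt_pow_left x t m L d r (by omega) L le_rfl] at h1
  have e : (t ^ r)⁻¹ * ((t ^ L * x * (t ^ L)⁻¹)⁻¹ * t ^ r)
          = (t ^ (m + 1) * x * (t ^ (m + 1))⁻¹)⁻¹ := by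
    have : L = r + (m + 1) := by omega
    rw [this, pow_add t r (m+1)]
    group
  rw [e, Subgroup.inv_mem_iff] at h1
  have h2 := next_mem_Csub x t m hs
  have h3 : r < L := by omega
  simp [h2, h3] at h1
  exact hd h1

/-- commutators of `e`-th powers lie in the base, hence have order dividing `l` -/
theorem comm_pow (L e l : ℕ) (he : ∀ g : Γ, g ^ e = 1) (hl : ∀ g : D, g ^ l = 1)
    (a b : D ≀ᵣ (Γ × Multiplicative (ZMod L))) :
    (a ^ e * b * (a ^ e)⁻¹ * b⁻¹) ^ l = 1 := by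
  have hr : (a ^ e * b * (a ^ e)⁻¹ * b⁻¹).right = 1 := by
    have hpow : (a ^ e).right = a.right ^ e := by
      have := map_pow (rightHom : D ≀ᵣ (Γ × Multiplicative (ZMod L)) →* _) a e
      simpa using this
    simp only [mul_right, inv_right, hpow]
    ext
    · simp [he]
    · simp [mul_comm]
  have key : ∀ (c : D ≀ᵣ (Γ × Multiplicative (ZMod L))), c.right = 1 → ∀ n : ℕ,
      (c ^ n).right = 1 ∧ ∀ p, (c ^ n).left p = (c.left p) ^ n := by
    intro c hc n
    induction n with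
    | zero => simp
    | succ n ih =>
      refine ⟨by rw [pow_succ, mul_right, ih.1, hc, one_mul], fun p => ?_⟩
      rw [pow_succ, mul_left, Pi.mul_apply, ih.2, ih.1, pow_succ]
      simp
  obtain ⟨h1, h2⟩ := key _ hr l
  apply RegularWreathProduct.ext
  · funext p
    rw [h2 p, hl]
    rfl
  · exact h1

end next

end Pool.Agent.MPcb8b78
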