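import Pool.Agent.Work.MP_cb8b78_al.Stage

set_option autoImplicit false

namespace Pool.Agent.MPcb8b78

open RegularWreathProduct

/-- A stage of the construction. -/
structure Stage where
  Γ : Type
  [grp : Group Γ]
  [fin : Finite Γ]
  x : Γ
  t : Γ
  m : ℕ
  strict : t ^ m * x * (t ^ m)⁻¹ ∉
    Subgroup.closure {y : Γ | ∃ j : ℕ, j < m ∧ y = t ^ j * x * (t ^ j)⁻¹}

attribute [instance] Stage.grp Stage.fin

/-- the initial stage -/
def stage0 : Stage where
  Γ := Multiplicative (ZMod 2)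
  x := Multiplicative.ofAdd 1
  t := 1
  m := 0
  strict := by
    have : {y : Multiplicative (ZMod 2) | ∃ j : ℕ, j < 0 ∧
      y = 1 ^ j * (Multiplicative.ofAdd 1) * (1 ^ j)⁻¹} = ∅ := by
      ext y; simp
    rw [this, Subgroup.closure_empty, Subgroup.mem_bot]
    decide

/-- the next stage: wreath product with a cyclic group of order `l + 2`; `r` is the slack -/
noncomputable def nextStage (l r : ℕ) (S : Stage) : Stage where
  Γ := Multiplicative (ZMod (l + 2)) ≀ᵣ (S.Γ × Multiplicative (ZMod (r + S.m + 1)))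
  x := nx _ S.x _
  t := nt S.x S.t S.m _ (Multiplicative.ofAdd 1)
  m := r + S.m + 1
  strict := next_strict S.x S.t S.m (Multiplicative.ofAdd (1 : ZMod (l + 2)))
    (by
      intro h
      have h2 : (1 : ZMod (l + 2)) = 0 := congrArg Multiplicative.toAdd h
      have h3 : ((1 : ℕ) : ZMod (l + 2)) = ((0 : ℕ) : ZMod (l + 2)) := by simpa using h2
      rw [ZMod.natCast_eq_natCast_iff'] at h3
      rw [Nat.mod_eq_of_lt (by omega), Nat.mod_eq_of_lt (by omega)] at h3
      exact absurd h3 one_ne_zero) S.strict r (r + S.m + 1) rfl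

/-- the tower -/
noncomputable def tower : ℕ → Stage
  | 0 => stage0
  | i + 1 => nextStage (i % 2) ((i + 1) * Nat.card (tower i).Γ) (tower i)

/-- the free group -/
abbrev F : Type := FreeGroup Bool

/-- generator -/
def fx : F := FreeGroup.of true
/-- generator -/
def ft : F := FreeGroup.of false

/-- the marking -/
noncomputable def Psi (i : ℕ) : F →* (tower i).Γ :=
  FreeGroup.lift (fun b => if b then (tower i).x else (tower i).t)

@[simp] theorem Psi_x (i : ℕ) : Psi i fx = (tower i).x := by simp [Psi, fx]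
@[simp] theorem Psi_t (i : ℕ) : Psi i ft = (tower i).t := by simp [Psi, ft]

/-- conjugates of `x` -/
def X (j : ℤ) : F := ft ^ j * fx * (ft ^ j)⁻¹

/-- window subgroups -/
def W (a b : ℤ) : Subgroup F := Subgroup.closure {y | ∃ j : ℤ, a ≤ j ∧ j ≤ b ∧ y = X j}

theorem X_mem_W {a b j : ℤ} (h1 : a ≤ j) (h2 : j ≤ b) : X j ∈ W a b :=
  Subgroup.subset_closure ⟨j, h1, h2, rfl⟩

theorem W_mono {a b a' b' : ℤ} (h1 : a' ≤ a) (h2 : b ≤ b') : W a b ≤ W a' b' := by
  unfold W
  apply Subgroup.closure_mono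
  rintro y ⟨j, h3, h4, rfl⟩
  exact ⟨j, by omega, by omega, rfl⟩

theorem conj_X (k j : ℤ) : ft ^ k * X j * (ft ^ k)⁻¹ = X (k + j) := by
  unfold X
  rw [zpow_add]
  group

theorem conj_W {a b : ℤ} (k : ℤ) {w : F} (hw : w ∈ W a b) :
    ft ^ k * w * (ft ^ k)⁻¹ ∈ W (k + a) (k + b) := by
  have : W a b ≤ (W (k + a) (k + b)).comap (MulAut.conj (ft ^ k)).toMonoidHom := by
    conv_lhs => unfold W
    rw [Subgroup.closure_le]
    rintro y ⟨j, h3, h4, rfl⟩
    change ft ^ k * X j * (ft ^ k)⁻¹ ∈ W (k + a) (k + b)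
    rw [conj_X]
    exact X_mem_W (by omega) (by omega)
  exact this hw

/-- exponent sum of `t` -/
def tau : F →* Multiplicative ℤ := FreeGroup.lift (fun b => if b then 1 else Multiplicative.ofAdd 1)

@[simp] theorem tau_x : tau fx = 1 := by simp [tau, fx]
@[simp] theorem tau_t : tau ft = Multiplicative.ofAdd 1 := by simp [tau, ft]

/-- exponent sum as an integer -/
def tz (w : F) : ℤ := Multiplicative.toAdd (tau w)

theorem tz_mul (a b : F) : tz (a * b) = tz a + tz b := by simp [tz]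
theorem tz_inv (a : F) : tz (a⁻¹) = - tz a := by simp [tz]
@[simp] theorem tz_one : tz 1 = 0 := by simp [tz]
@[simp] theorem tz_x : tz fx = 0 := by simp [tz]
@[simp] theorem tz_t : tz ft = 1 := by simp [tz]

/-- words with radius at most `n` -/
def Rad (n : ℕ) (w : F) : Prop := |tz w| ≤ n ∧ w * (ft ^ (tz w))⁻¹ ∈ W (-n) n

theorem Rad_one : Rad 0 1 := by
  refine ⟨by simp, ?_⟩
  simp

theorem Rad_mul {m n : ℕ} {a b : F} (ha : Rad m a) (hb : Rad n b) : Rad (m + n) (a * b) := by
  obtain ⟨ha1, ha2⟩ := ha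
  obtain ⟨hb1, hb2⟩ := hb
  rw [abs_le] at ha1 hb1
  refine ⟨?_, ?_⟩
  · rw [tz_mul, abs_le]; push_cast; constructor <;> omega
  · have e : a * b * (ft ^ (tz (a * b)))⁻¹
        = (a * (ft ^ (tz a))⁻¹) * (ft ^ (tz a) * (b * (ft ^ (tz b))⁻¹) * (ft ^ (tz a))⁻¹) := by
      rw [tz_mul, add_comm, zpow_add]
      group
    rw [e]
    push_cast
    refine Subgroup.mul_mem _ (W_mono (by omega) (by omega) ha2)
      (W_mono (by omega) (by omega) (conj_W (tz a) hb2))

theorem Rad_inv {m : ℕ} {a : F} (ha : Rad m a) : Rad (2 * m) a⁻¹ := by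
  obtain ⟨ha1, ha2⟩ := ha
  rw [abs_le] at ha1
  refine ⟨?_, ?_⟩
  · rw [tz_inv, abs_le]; push_cast; constructor <;> omega
  · have e : a⁻¹ * (ft ^ (tz a⁻¹))⁻¹
        = (ft ^ (-tz a)) * (a * (ft ^ (tz a))⁻¹)⁻¹ * (ft ^ (-tz a))⁻¹ := by
      rw [tz_inv]
      group
    rw [e]
    push_cast
    refine W_mono (by omega) (by omega) (conj_W (- tz a) (Subgroup.inv_mem _ ha2))

theorem Rad_mono {m n : ℕ} (h : m ≤ n) {a : F} (ha : Rad m a) : Rad n a := by
  obtain ⟨ha1, ha2⟩ := ha
  exact ⟨le_trans ha1 (by exact_mod_cast h), W_mono (by omega) (by omega) ha2⟩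

theorem Rad_pow {m : ℕ} {a : F} (ha : Rad m a) (k : ℕ) : Rad (k * m) (a ^ k) := by
  induction k with
  | zero => simpa using Rad_one
  | succ k ih =>
    rw [pow_succ]
    have := Rad_mul ih ha
    have e : k * m + m = (k + 1) * m := by ring
    rwa [e] at this

theorem Rad_comm {m n : ℕ} {a b : F} (ha : Rad m a) (hb : Rad n b) :
    Rad (3 * (m + n)) (a * b * a⁻¹ * b⁻¹) := by
  have := Rad_mul (Rad_mul (Rad_mul ha hb) (Rad_inv ha)) (Rad_inv hb)
  exact Rad_mono (by omega) this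

theorem Rad_x : Rad 1 fx := by
  refine ⟨by simp, ?_⟩
  have : fx * (ft ^ (tz fx))⁻¹ = X 0 := by simp [X]
  rw [this]
  exact X_mem_W (by simp) (by simp)

theorem Rad_t : Rad 1 ft := by
  refine ⟨by simp, ?_⟩
  have : ft * (ft ^ (tz ft))⁻¹ = 1 := by simp
  rw [this]
  exact Subgroup.one_mem _

theorem exists_Rad (w : F) : ∃ n, Rad n w := by
  induction w using FreeGroup.induction_on with
  | C1 => exact ⟨0, Rad_one⟩
  | of b =>
    cases b
    · exact ⟨1, Rad_t⟩
    · exact ⟨1, Rad_x⟩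
  | inv_of b ih =>
    obtain ⟨n, hn⟩ := ih
    exact ⟨2 * n, Rad_inv hn⟩
  | mul a b iha ihb =>
    obtain ⟨m, hm⟩ := iha
    obtain ⟨n, hn⟩ := ihb
    exact ⟨m + n, Rad_mul hm hn⟩

theorem Rad_window {n : ℕ} {w : F} (h : Rad n w) (h0 : tz w = 0) (M : ℕ) (hM : 2 * n ≤ M) :
    ft ^ n * w * (ft ^ n)⁻¹ ∈ W 0 M := by
  obtain ⟨_, h2⟩ := h
  rw [h0] at h2
  simp only [zpow_zero, inv_one, mul_one] at h2
  have := conj_W (n : ℤ) h2
  rw [zpow_natCast] at this
  exact W_mono (by omega) (by omega) this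

/-! ### The tower -/

theorem tower_succ (i : ℕ) :
    tower (i + 1) = nextStage (i % 2) ((i + 1) * Nat.card (tower i).Γ) (tower i) := rfl

theorem m_succ (i : ℕ) :
    (tower (i + 1)).m = (i + 1) * Nat.card (tower i).Γ + (tower i).m + 1 := rfl

theorem m_lt (i : ℕ) : (tower i).m < (tower (i + 1)).m := by rw [m_succ]; omega

theorem m_strictMono : StrictMono (fun i => (tower i).m) := strictMono_nat_of_lt_succ m_lt

/-- the embedding of one stage in the next -/
noncomputable def step (i : ℕ) : (tower i).Γ →* (tower (i + 1)).Γ :=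
  emb (tower i).Γ (Multiplicative (ZMod (i % 2 + 2))) ((i + 1) * Nat.card (tower i).Γ + (tower i).m + 1)

theorem step_injective (i : ℕ) : Function.Injective (step i) := emb_injective _

theorem Psi_X (i : ℕ) (j : ℕ) :
    Psi i (X j) = (tower i).t ^ j * (tower i).x * ((tower i).t ^ j)⁻¹ := by
  unfold X
  simp

theorem step_X (i j : ℕ) (hj : j ≤ (tower i).m) : Psi (i + 1) (X j) = step i (Psi i (X j)) := by
  rw [Psi_X, Psi_X]
  exact compat (tower i).x (tower i).t (tower i).m _ _ j hj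

theorem step_W (i : ℕ) (w : F) (hw : w ∈ W 0 (tower i).m) :
    Psi (i + 1) w = step i (Psi i w) := by
  have hle : W 0 (tower i).m ≤ (Psi (i + 1)).eqLocus ((step i).comp (Psi i)) := by
    conv_lhs => unfold W
    rw [Subgroup.closure_le]
    rintro y ⟨j, h3, h4, rfl⟩
    obtain ⟨k, rfl⟩ := Int.eq_ofNat_of_zero_le h3
    exact step_X i k (by exact_mod_cast h4)
  exact hle hw

theorem Psi_succ_iff (i : ℕ) (w : F) (hw : w ∈ W 0 (tower i).m) :
    Psi (i + 1) w = 1 ↔ Psi i w = 1 := by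
  rw [step_W i w hw]
  constructor
  · intro h
    apply step_injective i
    rw [h, map_one]
  · intro h; rw [h, map_one]

theorem Psi_le_iff (i k : ℕ) (hik : i ≤ k) (w : F) (hw : w ∈ W 0 (tower i).m) :
    Psi k w = 1 ↔ Psi i w = 1 := by
  induction k, hik using Nat.le_induction with
  | base => rfl
  | succ k hk ih =>
    rw [Psi_succ_iff k w, ih]
    refine W_mono le_rfl ?_ hw
    exact_mod_cast m_strictMono.monotone hk

/-- The limit kernel -/
noncomputable def Kinf : Subgroup F where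
  carrier := {w | ∀ᶠ i in Filter.atTop, Psi i w = 1}
  one_mem' := by simp
  mul_mem' := by
    intro a b ha hb
    simp only [Set.mem_ofPred_eq] at ha hb ⊢
    filter_upwards [ha, hb] with i h1 h2
    rw [map_mul, h1, h2, one_mul]
  inv_mem' := by
    intro a ha
    simp only [Set.mem_ofPred_eq] at ha ⊢
    filter_upwards [ha] with i h1
    rw [map_inv, h1, inv_one]

theorem mem_Kinf {w : F} : w ∈ Kinf ↔ ∀ᶠ i in Filter.atTop, Psi i w = 1 := Iff.rfl

instance Kinf_normal : Kinf.Normal where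
  conj_mem := by
    intro a ha g
    rw [mem_Kinf] at ha ⊢
    filter_upwards [ha] with i h1
    rw [map_mul, map_mul, h1, map_inv]
    group

theorem mem_Kinf_iff (i : ℕ) (w : F) (hw : w ∈ W 0 (tower i).m) : w ∈ Kinf ↔ Psi i w = 1 := by
  rw [mem_Kinf]
  constructor
  · intro h
    obtain ⟨k, hk, hk2⟩ := (h.and (Filter.eventually_ge_atTop i)).exists
    rwa [Psi_le_iff i k hk2 w hw] at hk
  · intro h
    filter_upwards [Filter.eventually_ge_atTop i] with k hk
    rwa [Psi_le_iff i k hk w hw]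

theorem Psi_comm_pow (i : ℕ) (s f : F) :
    Psi (i + 1) ((s ^ (Nat.card (tower i).Γ) * f * (s ^ (Nat.card (tower i).Γ))⁻¹ * f⁻¹)
      ^ (i % 2 + 2)) = 1 := by
  have := comm_pow (Γ := (tower i).Γ) (D := Multiplicative (ZMod (i % 2 + 2)))
    ((i + 1) * Nat.card (tower i).Γ + (tower i).m + 1) (Nat.card (tower i).Γ) (i % 2 + 2)
    (fun g => pow_card_eq_one')
    (fun g => by
      have h := pow_card_eq_one' (x := g)
      have h2 : Nat.card (Multiplicative (ZMod (i % 2 + 2))) = i % 2 + 2 := Nat.card_zmod _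
      rwa [h2] at h)
    (Psi (i + 1) s) (Psi (i + 1) f)
  rw [map_pow, map_mul, map_mul, map_mul, map_inv, map_inv, map_pow]
  exact this

theorem relation_aux (i : ℕ) (s f : F) (n : ℕ) (hs : Rad n s) (hf : Rad n f)
    (hi : 36 * n ≤ i + 1) :
    (s ^ (Nat.card (tower i).Γ) * f * (s ^ (Nat.card (tower i).Γ))⁻¹ * f⁻¹)
      ^ (i % 2 + 2) ∈ Kinf := by
  set e := Nat.card (tower i).Γ with he
  have hepos : 0 < e := Nat.card_pos
  set w := (s ^ e * f * (s ^ e)⁻¹ * f⁻¹) ^ (i % 2 + 2) with hw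
  have hR : Rad ((i % 2 + 2) * (3 * (e * n + n))) w := Rad_pow (Rad_comm (Rad_pow hs e) hf) _
  have hR' : Rad (18 * (e * n)) w := by
    apply Rad_mono _ hR
    have h1 : i % 2 + 2 ≤ 3 := by omega
    calc (i % 2 + 2) * (3 * (e * n + n)) ≤ 3 * (3 * (e * n + n)) := Nat.mul_le_mul_right _ h1
      _ ≤ 18 * (e * n) := by nlinarith
  have h0 : tz w = 0 := by
    simp [hw, tz, map_pow]
  have hM : 2 * (18 * (e * n)) ≤ (tower (i + 1)).m := by
    rw [m_succ, ← he]
    have : 36 * n * e ≤ (i + 1) * e := Nat.mul_le_mul_right _ hi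
    nlinarith
  have h3 := Rad_window hR' h0 _ hM
  have h4 : ft ^ (18 * (e * n)) * w * (ft ^ (18 * (e * n)))⁻¹ ∈ Kinf := by
    rw [mem_Kinf_iff (i + 1) _ h3]
    rw [map_mul, map_mul, hw, Psi_comm_pow, map_inv]
    group
  have h5 := Kinf_normal.conj_mem _ h4 (ft ^ (18 * (e * n)))⁻¹
  have e6 : (ft ^ (18 * (e * n)))⁻¹ * (ft ^ (18 * (e * n)) * w * (ft ^ (18 * (e * n)))⁻¹)
      * (ft ^ (18 * (e * n)))⁻¹⁻¹ = w := by group
  rwa [e6] at h5

theorem relation_parity (p : ℕ) (hp : p < 2) (s f : F) :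
    ∃ e : ℕ, 0 < e ∧ (s ^ e * f * (s ^ e)⁻¹ * f⁻¹) ^ (p + 2) ∈ Kinf := by
  obtain ⟨a, ha⟩ := exists_Rad s
  obtain ⟨b, hb⟩ := exists_Rad f
  have h := relation_aux (2 * (36 * (a + b)) + p) s f (a + b) (Rad_mono (by omega) ha)
    (Rad_mono (by omega) hb) (by omega)
  refine ⟨Nat.card (tower (2 * (36 * (a + b)) + p)).Γ, Nat.card_pos, ?_⟩
  have e : (2 * (36 * (a + b)) + p) % 2 + 2 = p + 2 := by omega
  rwa [e] at h

/-- strictness in the limit -/
theorem strict_Kinf (i : ℕ) (w : F)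
    (hw : w ∈ Subgroup.closure {y : F | ∃ j : ℕ, j < (tower i).m ∧ y = X j}) :
    (X (tower i).m)⁻¹ * w ∉ Kinf := by
  intro h
  have hw2 : w ∈ W 0 (tower i).m := by
    have hle : Subgroup.closure {y : F | ∃ j : ℕ, j < (tower i).m ∧ y = X j}
        ≤ W 0 (tower i).m := by
      rw [Subgroup.closure_le]
      rintro y ⟨j, hj, rfl⟩
      exact X_mem_W (by omega) (by omega)
    exact hle hw
  rw [mem_Kinf_iff i _ (Subgroup.mul_mem _ (Subgroup.inv_mem _ (X_mem_W (by omega) le_rfl)) hw2),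
    map_mul, map_inv, inv_mul_eq_one, Psi_X] at h
  apply (tower i).strict
  rw [h]
  have hle : Subgroup.closure {y : F | ∃ j : ℕ, j < (tower i).m ∧ y = X j}
      ≤ (Subgroup.closure {y : (tower i).Γ | ∃ j : ℕ, j < (tower i).m ∧
        y = (tower i).t ^ j * (tower i).x * ((tower i).t ^ j)⁻¹}).comap (Psi i) := by
    rw [Subgroup.closure_le]
    rintro y ⟨j, hj, rfl⟩
    exact Subgroup.subset_closure ⟨j, hj, Psi_X i j⟩
  exact hle hw

/-- The limit group -/
abbrev G : Type := F ⧸ Kinf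

/-- quotient map -/
noncomputable def q : F →* G := QuotientGroup.mk' Kinf

theorem q_eq_one {w : F} : q w = 1 ↔ w ∈ Kinf := QuotientGroup.eq_one_iff w

theorem q_surj : Function.Surjective q := QuotientGroup.mk'_surjective Kinf

theorem finite_window (a b : ℤ) : Finite ((W a b).map q) := by
  classical
  -- first the nonnegative windows
  have h0 : ∀ r : ℕ, Finite ((W 0 r).map q) := by
    intro r
    obtain ⟨i, hi⟩ : ∃ i, r ≤ (tower i).m := ⟨r, m_strictMono.id_le r⟩
    have hle : W 0 r ≤ W 0 (tower i).m := W_mono le_rfl (by exact_mod_cast hi)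
    let φ : (W 0 r) →* (tower i).Γ := (Psi i).comp (W 0 r).subtype
    let ψ : (W 0 r) →* G := q.comp (W 0 r).subtype
    have hker : φ.ker ≤ ψ.ker := by
      intro w hw
      rw [MonoidHom.mem_ker] at hw ⊢
      change Psi i w = 1 at hw
      change q w = 1
      rw [q_eq_one, mem_Kinf_iff i _ (hle w.2)]
      exact hw
    have hfin : Finite ψ.range := by
      have : (Set.range ψ).Finite := by
        have hφ : (Set.range φ).Finite := Set.toFinite _
        -- choose representatives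
        let g : (tower i).Γ → G := fun y => if h : ∃ w : (W 0 r), φ w = y then ψ h.choose else 1
        apply (Set.finite_range g).subset
        rintro y ⟨w, rfl⟩
        refine ⟨φ w, ?_⟩
        have hex : ∃ w' : (W 0 r), φ w' = φ w := ⟨w, rfl⟩
        simp only [g, dif_pos hex]
        have hc := hex.choose_spec
        have : hex.choose⁻¹ * w ∈ ψ.ker := hker (by
          rw [MonoidHom.mem_ker, map_mul, map_inv, hc, inv_mul_cancel])
        rw [MonoidHom.mem_ker, map_mul, map_inv, inv_mul_eq_one] at this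
        exact this
      exact this.to_subtype
    have e : ψ.range = (W 0 r).map q := by
      ext y
      constructor
      · rintro ⟨w, rfl⟩; exact ⟨w, w.2, rfl⟩
      · rintro ⟨w, hw, rfl⟩; exact ⟨⟨w, hw⟩, rfl⟩
    rw [← e]
    exact hfin
  have h1 := h0 (b - a).toNat
  -- conjugate
  have hle : ((W a b).map q : Set G) ⊆
      (fun y => q (ft ^ a) * y * (q (ft ^ a))⁻¹) '' ((W 0 (b - a).toNat).map q : Set G) := by
    rintro y ⟨w, hw, rfl⟩
    refine ⟨q ((ft ^ (-a)) * w * (ft ^ (-a))⁻¹), ⟨_, ?_, rfl⟩, ?_⟩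
    · exact W_mono (by omega) (by omega) (conj_W (-a) hw)
    · simp only [← map_mul, ← map_inv]
      congr 1
      group
  exact ((Set.toFinite ((W 0 (b - a).toNat).map q : Set G)).image _ |>.subset hle).to_subtype

end Pool.Agent.MPcb8b78
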